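import Pool.Agent.H92.AP.Cnt
import Pool.Agent.H95.FL.Main
import Pool.Agent.H75.AP.MertensB

/-!
# THEOREM AP: lower bound sieve in an interval and a class

`sv`: for sets `R p` of at most `N` classes modulo the primes `p > w` the number of `u ∈ (A, B]`, `u ≡ v₀ (m)`, which avoid
`R p` for all primes `w < p ≤ Y ^ a` is at least `δ Y / (log Y) ^ C`, if `ρ Y ≤ B - A`.
-/

set_option autoImplicit false

namespace Pool.Agent.H92.AP

open Finset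

theorem exp_lb (x : ℝ) (h0 : 0 ≤ x) (h1 : x ≤ 1 / 2) : Real.exp (-(2 * x)) ≤ 1 - x := by
  have h2 : 1 + 2 * x + 0 ≤ Real.exp (2 * x) := by
    have := Real.add_one_le_exp (2 * x)
    linarith
  rw [Real.exp_neg, inv_le_comm₀ (Real.exp_pos _) (by linarith)]
  refine le_trans ?_ h2
  rw [inv_le_iff_one_le_mul₀ (by linarith)]
  nlinarith

theorem prod_exp (P : Finset ℕ) (g : ℕ → ℝ) (h : ∀ p ∈ P, 0 ≤ g p ∧ g p ≤ 1 / 2) :
    Real.exp (-(2 * ∑ p ∈ P, g p)) ≤ ∏ p ∈ P, (1 - g p) := by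
  rw [mul_sum, ← sum_neg_distrib, Real.exp_sum]
  exact prod_le_prod (fun p _ => (Real.exp_pos _).le) fun p hp => exp_lb _ (h p hp).1 (h p hp).2

/-- the log power is small -/
theorem log_small (c : ℝ) (hc : 0 < c) (n : ℕ) : ∃ Y₀ : ℝ, 3 ≤ Y₀ ∧ ∀ Y : ℝ, Y₀ ≤ Y →
    Y ^ (1 / 2 : ℝ) ≤ c * (Y / Real.log Y ^ n) := by
  have h := (isLittleO_log_rpow_rpow_atTop (n : ℝ) (show (0 : ℝ) < 1 / 2 by norm_num)).def hc
  obtain ⟨Y₁, h1⟩ := h.exists_forall_of_atTop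
  refine ⟨max Y₁ 3, le_max_right _ _, fun Y hY => ?_⟩
  have h3 : 3 ≤ Y := (le_max_right _ _).trans hY
  have h2 := h1 Y ((le_max_left _ _).trans hY)
  have hl : 0 < Real.log Y := Real.log_pos (by linarith)
  have hY0 : (0 : ℝ) < Y := by linarith
  rw [Real.rpow_natCast, Real.norm_of_nonneg (by positivity), Real.norm_of_nonneg (by positivity)] at h2
  rw [← mul_div_assoc, le_div_iff₀ (by positivity)]
  calc Y ^ (1 / 2 : ℝ) * Real.log Y ^ n ≤ Y ^ (1 / 2 : ℝ) * (c * Y ^ (1 / 2 : ℝ)) :=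
        mul_le_mul_of_nonneg_left h2 (by positivity)
    _ = c * (Y ^ (1 / 2 : ℝ) * Y ^ (1 / 2 : ℝ)) := by ring
    _ = c * Y := by
        rw [← Real.rpow_add hY0]
        norm_num

theorem sv (N : ℕ) : ∃ w0 : ℕ, 200 ≤ w0 ∧ ∀ (w m : ℕ), w0 ≤ w → 0 < m → (∀ p : ℕ, p.Prime → w < p → m.Coprime p) →
    ∀ ρ : ℝ, 0 < ρ → ∃ (a δ Y₀ : ℝ), 0 < a ∧ a ≤ 1 ∧ 0 < δ ∧ 3 ≤ Y₀ ∧ ∀ Y : ℝ, Y₀ ≤ Y → ∀ R : ℕ → Finset ℤ,
    (∀ p : ℕ, p.Prime → w < p → (R p).card ≤ N ∧ ∀ r ∈ R p, 0 ≤ r ∧ r < p) → ∀ A B v₀ : ℤ, ρ * Y ≤ (B : ℝ) - A →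
    ∃ S : Finset ℤ, S ⊆ Ioc A B ∧ δ * (Y / Real.log Y ^ (2 * (N + 1))) ≤ S.card ∧
      ∀ u ∈ S, u ≡ v₀ [ZMOD m] ∧ ∀ p : ℕ, p.Prime → w < p → (p : ℝ) ≤ Y ^ a → u % (p : ℤ) ∉ R p := by
  classical
  obtain ⟨w0, hw0, hFL⟩ := Pool.Agent.H95.FL.FL (N + 1) (by omega)
  obtain ⟨C₁, hC₁, hmer⟩ := Pool.Agent.H75.AP.mertens_upper
  refine ⟨w0, by omega, ?_⟩
  intro w m hw hm hco ρ hρ
  obtain ⟨b, hb⟩ : ∃ b : ℕ, b = 10 * (N + 1) := ⟨_, rfl⟩
  obtain ⟨a, ha⟩ : ∃ a : ℝ, a = 1 / (2 * (6 * b + 12)) := ⟨_, rfl⟩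
  have ha0 : 0 < a := by rw [ha]; positivity
  have ha1 : a ≤ 1 := by
    rw [ha, div_le_one (by positivity)]
    have : (0 : ℝ) ≤ b := Nat.cast_nonneg _
    linarith
  have ha2 : a * (6 * b + 12) ≤ 1 / 2 := by
    rw [ha]
    field_simp
    norm_num
  obtain ⟨x0, hx0, hF⟩ := hFL b (1 / 2) a (by rw [hb]) ha0 ha1 ha2
  have hmr : (0 : ℝ) < m := by exact_mod_cast hm
  obtain ⟨c, hc⟩ : ∃ c : ℝ, c = ρ / m * (1 / 2) * Real.exp (-(2 * ((N + 1 : ℕ) : ℝ) * C₁)) := ⟨_, rfl⟩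
  have hc0 : 0 < c := by rw [hc]; positivity
  obtain ⟨Y₁, hY₁, hls⟩ := log_small (c / 2) (by positivity) (2 * (N + 1))
  refine ⟨a, c / 2, max x0 Y₁, ha0, ha1, by positivity, hx0.trans (le_max_left _ _), ?_⟩
  intro Y hY R hR A B v₀ hAB
  have hYx : x0 ≤ Y := (le_max_left _ _).trans hY
  have hY3 : 3 ≤ Y := hx0.trans hYx
  have hY0 : 0 < Y := by linarith
  have hABr : 0 ≤ (B : ℝ) - A := le_trans (by positivity) hAB
  have hAB' : A ≤ B := by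
    have : (A : ℝ) ≤ B := by linarith
    exact_mod_cast this
  obtain ⟨P, hP⟩ : ∃ P : Finset ℕ, P = (range (⌊Y ^ a⌋₊ + 1)).filter (fun p => p.Prime ∧ w < p) := ⟨_, rfl⟩
  have hPm : ∀ p, p ∈ P ↔ p.Prime ∧ w < p ∧ (p : ℝ) ≤ Y ^ a := by
    intro p
    rw [hP, mem_filter, mem_range, Nat.lt_succ_iff, Nat.le_floor_iff (by positivity)]
    tauto
  obtain ⟨phim, -, hsupp, -, habs, -, hmass, -, hval, -, hmean⟩ : ∃ phim : Finset ℕ → ℝ, True ∧
      (∀ S, phim S ≠ 0 → S ⊆ P ∧ ((∏ p ∈ S, p : ℕ) : ℝ) ≤ Y ^ (1 / 2 : ℝ)) ∧ True ∧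
      (∀ S, |phim S| ≤ 1) ∧ True ∧
      (∑ S ∈ P.powerset, |phim S| * ((N + 1 : ℕ) : ℝ) ^ S.card ≤ Y ^ (1 / 2 : ℝ)) ∧ True ∧
      (∀ D, D ⊆ P → ∑ S ∈ D.powerset, phim S ≤ (if D = ∅ then 1 else 0)) ∧ True ∧
      (∀ g : ℕ → ℝ, (∀ p ∈ P, 0 ≤ g p ∧ g p ≤ 2 * ((N + 1 : ℕ) : ℝ) / p) →
          (1 - (1 / 2 : ℝ) ^ b) * ∏ p ∈ P, (1 - g p) ≤ ∑ S ∈ P.powerset, phim S * ∏ p ∈ S, g p) := by
    obtain ⟨phim, phip, h1, h2, h3, h4, h5, h6, h7, h8⟩ := hF Y hYx P (fun p hp => by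
      have := (hPm p).1 hp
      exact ⟨this.1, by omega, this.2.2⟩)
    exact ⟨phim, trivial, h1, trivial, h3, trivial, h5, trivial, fun D hD => (h7 D hD).1, trivial,
      fun g hg => (h8 g hg).1⟩
  obtain ⟨g, hg⟩ : ∃ g : ℕ → ℝ, g = fun p => ((R p).card : ℝ) / p := ⟨_, rfl⟩
  have hgP : ∀ p ∈ P, 0 ≤ g p ∧ g p ≤ ((N + 1 : ℕ) : ℝ) / p := by
    intro p hp
    have h1 := (hPm p).1 hp
    have h2 := (hR p h1.1 h1.2.1).1
    rw [hg]
    refine ⟨by positivity, ?_⟩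
    refine div_le_div_of_nonneg_right ?_ (Nat.cast_nonneg _)
    exact_mod_cast h2.trans (Nat.le_succ _)
  have hNp : ∀ p ∈ P, ((N + 1 : ℕ) : ℝ) / p ≤ 1 / 2 := by
    intro p hp
    have h1 := (hPm p).1 hp
    have h2 : 2 * (N + 1) ≤ p := by omega
    have h3 : (2 : ℝ) * ((N + 1 : ℕ) : ℝ) ≤ p := by exact_mod_cast h2
    have h4 : (0 : ℝ) < p := by exact_mod_cast h1.1.pos
    rw [div_le_iff₀ h4]
    linarith
  obtain ⟨U, hU⟩ : ∃ U : Finset ℤ, U = (Ioc A B).filter fun u => u ≡ v₀ [ZMOD m] := ⟨_, rfl⟩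
  obtain ⟨D, hD⟩ : ∃ D : ℤ → Finset ℕ, D = fun u => P.filter fun p => u % (p : ℤ) ∈ R p := ⟨_, rfl⟩
  have hDP : ∀ u, D u ⊆ P := fun u => by rw [hD]; exact filter_subset _ _
  obtain ⟨S, hS⟩ : ∃ S : Finset ℤ, S = U.filter fun u => D u = ∅ := ⟨_, rfl⟩
  refine ⟨S, ?_, ?_, ?_⟩
  · rw [hS, hU]
    exact (filter_subset _ _).trans (filter_subset _ _)
  · -- the main estimate
    have h1 : (S.card : ℝ) = ∑ u ∈ U, (if D u = ∅ then (1 : ℝ) else 0) := by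
      rw [hS, card_filter]
      push_cast
      rfl
    have h2 : ∑ u ∈ U, ∑ T ∈ (D u).powerset, phim T ≤ ∑ u ∈ U, (if D u = ∅ then (1 : ℝ) else 0) :=
      sum_le_sum fun u _ => hval (D u) (hDP u)
    have h3 : ∀ u, ∑ T ∈ (D u).powerset, phim T = ∑ T ∈ P.powerset, (if T ⊆ D u then phim T else 0) := by
      intro u
      rw [← sum_filter]
      refine sum_congr ?_ fun _ _ => rfl
      ext T
      rw [mem_powerset, mem_filter, mem_powerset]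
      exact ⟨fun h => ⟨h.trans (hDP u), h⟩, fun h => h.2⟩
    have h4 : ∑ u ∈ U, ∑ T ∈ (D u).powerset, phim T =
        ∑ T ∈ P.powerset, phim T * ((U.filter fun u => T ⊆ D u).card : ℝ) := by
      rw [sum_congr rfl fun u _ => h3 u, sum_comm]
      refine sum_congr rfl fun T _ => ?_
      rw [← sum_filter, sum_const, nsmul_eq_mul, mul_comm]
    have h5 : ∀ T ∈ P.powerset, |((U.filter fun u => T ⊆ D u).card : ℝ) -
        ((B : ℝ) - A) / m * ∏ p ∈ T, g p| ≤ ((N + 1 : ℕ) : ℝ) ^ T.card := by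
      intro T hT
      rw [mem_powerset] at hT
      have e1 : (U.filter fun u => T ⊆ D u) =
          (Ioc A B).filter fun u => u ≡ v₀ [ZMOD m] ∧ ∀ p ∈ T, u % (p : ℤ) ∈ R p := by
        ext u
        rw [hU, mem_filter, mem_filter, mem_filter, and_assoc]
        refine and_congr_right fun _ => and_congr_right fun _ => ?_
        rw [hD]
        constructor
        · intro h p hp
          exact (mem_filter.1 (h hp)).2
        · intro h p hp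
          exact mem_filter.2 ⟨hT hp, h p hp⟩
      have h6 := cnt A B hAB' R T (fun p hp => ((hPm p).1 (hT hp)).1)
        (fun p hp => (hR p ((hPm p).1 (hT hp)).1 ((hPm p).1 (hT hp)).2.1).2) m v₀ hm
        (fun p hp => hco p ((hPm p).1 (hT hp)).1 ((hPm p).1 (hT hp)).2.1)
      rw [e1, hg]
      refine h6.trans ?_
      rw [← prod_const]
      refine prod_le_prod (fun p _ => Nat.cast_nonneg _) fun p hp => ?_
      have h7 := (hR p ((hPm p).1 (hT hp)).1 ((hPm p).1 (hT hp)).2.1).1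
      exact_mod_cast h7.trans (Nat.le_succ _)
    have h6 : ((B : ℝ) - A) / m * (∑ T ∈ P.powerset, phim T * ∏ p ∈ T, g p) - Y ^ (1 / 2 : ℝ) ≤
        ∑ T ∈ P.powerset, phim T * ((U.filter fun u => T ⊆ D u).card : ℝ) := by
      have h7 : |∑ T ∈ P.powerset, (phim T * ((U.filter fun u => T ⊆ D u).card : ℝ) -
          phim T * (((B : ℝ) - A) / m * ∏ p ∈ T, g p))| ≤ Y ^ (1 / 2 : ℝ) := by
        refine (abs_sum_le_sum_abs _ _).trans (le_trans (sum_le_sum fun T hT => ?_) hmass)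
        rw [← mul_sub, abs_mul]
        exact mul_le_mul_of_nonneg_left (h5 T hT) (abs_nonneg _)
      rw [sum_sub_distrib] at h7
      have h8 : ∑ T ∈ P.powerset, phim T * (((B : ℝ) - A) / m * ∏ p ∈ T, g p) =
          ((B : ℝ) - A) / m * (∑ T ∈ P.powerset, phim T * ∏ p ∈ T, g p) := by
        rw [mul_sum]
        refine sum_congr rfl fun T _ => ?_
        ring
      rw [h8] at h7
      linarith [(abs_le.1 h7).1]
    have h7 := hmean g (fun p hp => ⟨(hgP p hp).1, (hgP p hp).2.trans (by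
      have h4 : (0 : ℝ) < p := by exact_mod_cast ((hPm p).1 hp).1.pos
      refine div_le_div_of_nonneg_right ?_ h4.le
      have : (0 : ℝ) ≤ ((N + 1 : ℕ) : ℝ) := Nat.cast_nonneg _
      linarith)⟩)
    have h8 := prod_exp P g (fun p hp => ⟨(hgP p hp).1, (hgP p hp).2.trans (hNp p hp)⟩)
    have h9 : ∑ p ∈ P, g p ≤ ((N + 1 : ℕ) : ℝ) * (Real.log (Real.log Y) + C₁) := by
      calc ∑ p ∈ P, g p ≤ ∑ p ∈ P, ((N + 1 : ℕ) : ℝ) * (1 / p) := by
            refine sum_le_sum fun p hp => (hgP p hp).2.trans (le_of_eq ?_)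
            ring
        _ = ((N + 1 : ℕ) : ℝ) * ∑ p ∈ P, 1 / (p : ℝ) := by rw [mul_sum]
        _ ≤ ((N + 1 : ℕ) : ℝ) * ∑ p ∈ Pool.Agent.H75.AP.PI 0 Y, 1 / (p : ℝ) := by
            refine mul_le_mul_of_nonneg_left ?_ (Nat.cast_nonneg _)
            refine sum_le_sum_of_subset_of_nonneg ?_ fun p _ _ => by positivity
            intro p hp
            have h10 := (hPm p).1 hp
            rw [Pool.Agent.H75.AP.MertB.mem_PI le_rfl]
            refine ⟨h10.1, by exact_mod_cast h10.1.pos, h10.2.2.trans ?_⟩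
            calc Y ^ a ≤ Y ^ (1 : ℝ) := Real.rpow_le_rpow_of_exponent_le (by linarith) ha1
              _ = Y := Real.rpow_one Y
        _ ≤ _ := mul_le_mul_of_nonneg_left (hmer Y hY3) (Nat.cast_nonneg _)
    have hl0 : 0 < Real.log Y := Real.log_pos (by linarith)
    have h10 : Real.exp (-(2 * ((N + 1 : ℕ) : ℝ) * C₁)) / Real.log Y ^ (2 * (N + 1)) ≤ ∏ p ∈ P, (1 - g p) := by
      refine le_trans (le_of_eq ?_) ((Real.exp_le_exp.2 (neg_le_neg (mul_le_mul_of_nonneg_left h9 (by norm_num)))).trans h8)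
      have e2 : -(2 * (((N + 1 : ℕ) : ℝ) * (Real.log (Real.log Y) + C₁))) =
          -(2 * ((N + 1 : ℕ) : ℝ) * C₁) - ((2 * (N + 1) : ℕ) : ℝ) * Real.log (Real.log Y) := by
        push_cast
        ring
      rw [e2, Real.exp_sub, Real.exp_nat_mul, Real.exp_log hl0]
    have h11 : (1 / 2 : ℝ) ≤ 1 - (1 / 2 : ℝ) ^ b := by
      have : (1 / 2 : ℝ) ^ b ≤ (1 / 2 : ℝ) ^ 1 := pow_le_pow_of_le_one (by norm_num) (by norm_num) (by omega)
      linarith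
    have h12 : (0 : ℝ) ≤ Real.exp (-(2 * ((N + 1 : ℕ) : ℝ) * C₁)) / Real.log Y ^ (2 * (N + 1)) := by positivity
    have h13 : c * (Y / Real.log Y ^ (2 * (N + 1))) ≤ ((B : ℝ) - A) / m * (∑ T ∈ P.powerset, phim T * ∏ p ∈ T, g p) := by
      calc c * (Y / Real.log Y ^ (2 * (N + 1))) = (ρ * Y) / m * ((1 / 2) *
            (Real.exp (-(2 * ((N + 1 : ℕ) : ℝ) * C₁)) / Real.log Y ^ (2 * (N + 1)))) := by
            rw [hc]
            ring
        _ ≤ ((B : ℝ) - A) / m * ((1 / 2) *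
            (Real.exp (-(2 * ((N + 1 : ℕ) : ℝ) * C₁)) / Real.log Y ^ (2 * (N + 1)))) := by
            refine mul_le_mul_of_nonneg_right (div_le_div_of_nonneg_right hAB hmr.le) (by positivity)
        _ ≤ _ := by
            refine mul_le_mul_of_nonneg_left ?_ (by positivity)
            refine le_trans ?_ h7
            exact mul_le_mul h11 h10 h12 (by linarith)
    have h14 := hls Y ((le_max_right _ _).trans hY)
    have h15 : c * (Y / Real.log Y ^ (2 * (N + 1))) = c / 2 * (Y / Real.log Y ^ (2 * (N + 1))) +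
        c / 2 * (Y / Real.log Y ^ (2 * (N + 1))) := by ring
    rw [h1]
    rw [h4] at h2
    linarith
  · intro u hu
    rw [hS, mem_filter, hU, mem_filter] at hu
    refine ⟨hu.1.2, fun p hp hwp hpY hmem => ?_⟩
    have h1 : p ∈ D u := by
      rw [hD]
      exact mem_filter.2 ⟨(hPm p).2 ⟨hp, hwp, hpY⟩, hmem⟩
    rw [hu.2] at h1
    exact absurd h1 (notMem_empty p)

end Pool.Agent.H92.AP
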