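import Pool.Agent.H92.AP.Fin
import Pool.Agent.H34.IS.Quot

/-!
# THEOREM AP: quotients `s` of consecutive prime gaps, `s` and `s + 1` almost prime
-/

set_option autoImplicit false

namespace Pool.Agent.H92.AP

open Finset Pool.Agent.H92.ST Pool.Agent.H34.IR Pool.Agent.H34.IS Pool.Agent.H21.CT Pool.Agent.H21.CG

theorem wt_one (C : ℕ) (z : ℤ) : wt C (fun _ : Fin 1 => z) = |(z : ℝ)| / Real.log |(z : ℝ)| ^ C := by
  unfold wt
  rw [Fin.prod_univ_one]

theorem wt_ge (C : ℕ) (X Y : ℝ) (h3 : 3 ≤ X) (hXY : X ≤ Y) (hY : Y ≤ X ^ 2) :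
    X / Real.log X ^ C / 2 ^ C ≤ Y / Real.log Y ^ C := by
  have h1 : 0 < Real.log X := Real.log_pos (by linarith)
  have h2 : 0 < Real.log Y := Real.log_pos (by linarith)
  have h4 : Real.log Y ≤ 2 * Real.log X := by
    have h5 := Real.log_le_log (by linarith) hY
    rw [Real.log_pow] at h5
    exact_mod_cast h5
  have h5 : Real.log Y ^ C ≤ 2 ^ C * Real.log X ^ C := by
    rw [← mul_pow]
    exact pow_le_pow_left₀ h2.le h4 C
  rw [div_div, div_le_div_iff₀ (by positivity) (by positivity)]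
  have h6 : 0 ≤ Real.log Y ^ C := by positivity
  calc X * Real.log Y ^ C ≤ Y * Real.log Y ^ C := mul_le_mul_of_nonneg_right hXY h6
    _ ≤ Y * (2 ^ C * Real.log X ^ C) := mul_le_mul_of_nonneg_left h5 (by linarith)
    _ = Y * (Real.log X ^ C * 2 ^ C) := by ring

theorem quot' (Q : ℕ) (ε : ℝ) (hQ : 0 < Q) (hε : 0 < ε) : ∃ (M X₀ R C : ℕ) (δ : ℝ), 0 < δ ∧ ∀ (X : ℕ) (a : ℤ), X₀ ≤ X →
    δ * (X / Real.log X ^ C) ≤ (({s : ℕ | X < s ∧ (s : ℝ) ≤ (1 + ε) * X ∧ (s : ℤ) ≡ a [ZMOD Q] ∧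
      s.primeFactorsList.length ≤ R ∧ (s + 1).primeFactorsList.length ≤ R ∧ ∃ m : ℕ, 1 ≤ m ∧ m ≤ M ∧
      {n : ℕ | gap n = m ∧ gap (n + 1) = s * m}.Infinite}).ncard : ℝ) ∧
    δ * (X / Real.log X ^ C) ≤ (({s : ℕ | X < s ∧ (s : ℝ) ≤ (1 + ε) * X ∧ (s : ℤ) ≡ a [ZMOD Q] ∧
      s.primeFactorsList.length ≤ R ∧ (s + 1).primeFactorsList.length ≤ R ∧ ∃ m : ℕ, 1 ≤ m ∧ m ≤ M ∧
      {n : ℕ | gap n = s * m ∧ gap (n + 1) = m}.Infinite}).ncard : ℝ) := by
  classical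
  obtain ⟨e, he⟩ : ∃ e : ℝ, e = ε / (2 * (1 + ε)) := ⟨_, rfl⟩
  have he0 : 0 < e := by
    rw [he]
    positivity
  have he1 : e * (1 + ε) = ε / 2 := by
    rw [he]
    field_simp
  obtain ⟨M, X₀, R, C, δ, hδ, H⟩ := main' 1 1 Q (fun _ => 0) e {0, 1} one_pair hQ he0
  obtain ⟨X₁, hX₁⟩ : ∃ X₁ : ℕ, 2 / ε + 1 ≤ (X₁ : ℝ) := ⟨⌈2 / ε + 1⌉₊, Nat.le_ceil _⟩
  obtain ⟨X₂, hX₂⟩ : ∃ X₂ : ℕ, 2 + ε ≤ (X₂ : ℝ) := ⟨⌈2 + ε⌉₊, Nat.le_ceil _⟩
  have hfin : ∀ (X : ℕ) (P : ℕ → Prop), {s : ℕ | X < s ∧ (s : ℝ) ≤ (1 + ε) * X ∧ P s}.Finite := by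
    intro X P
    refine Set.Finite.subset (Set.finite_Iic ⌊(1 + ε) * X⌋₊) fun s hs => ?_
    exact Nat.le_floor hs.2.1
  refine ⟨M, X₀ + X₁ + X₂ + 3, R, C, δ / 2 ^ C, by positivity, fun X a hX => ?_⟩
  have hX0 : X₀ ≤ X := by omega
  have hX1 : X₁ ≤ X := by omega
  have hX2 : 1 ≤ X := by omega
  have hX3 : (3 : ℝ) ≤ X := by
    have : 3 ≤ X := by omega
    exact_mod_cast this
  have hX4 : 2 + ε ≤ (X : ℝ) := by
    have : X₂ ≤ X := by omega
    exact hX₂.trans (by exact_mod_cast this)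
  have hXsq : (1 + ε) * X + 1 ≤ (X : ℝ) ^ 2 := by nlinarith
  have hXr : (1 : ℝ) ≤ X := by exact_mod_cast hX2
  have hXr1 : 2 / ε + 1 ≤ (X : ℝ) := hX₁.trans (by exact_mod_cast hX1)
  have hXε : 2 + ε ≤ X * ε := by
    have h1 : (2 / ε + 1) * ε = 2 + ε := by field_simp
    rw [← h1]
    exact mul_le_mul_of_nonneg_right hXr1 hε.le
  have heX : e * X ≤ ε / 2 * X := by
    refine mul_le_mul_of_nonneg_right ?_ (by positivity)
    nlinarith [mul_pos he0 hε]
  constructor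
  · have h1 := H (fun _ => (X : ℤ) + 1) (fun _ => a + 1) (fun _ => by
      show (X₀ : ℤ) ≤ |(X : ℤ) + 1|
      rw [abs_of_nonneg (by positivity)]
      omega)
    have h2 : δ / 2 ^ C * (X / Real.log X ^ C) ≤ δ * wt C (fun _ : Fin 1 => (X : ℤ) + 1) := by
      rw [wt_one]
      have e1 : |(((X : ℤ) + 1 : ℤ) : ℝ)| = X + 1 := by
        push_cast
        rw [abs_of_nonneg (by positivity)]
      rw [e1, div_mul_eq_mul_div, mul_div_assoc]
      refine mul_le_mul_of_nonneg_left ?_ hδ.le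
      exact wt_ge C X (X + 1) hX3 (by linarith) (by nlinarith)
    refine h2.trans (h1.trans (Nat.cast_le.2 ?_))
    refine Set.ncard_le_ncard_of_injOn (fun t => (t 0 - 1).toNat) ?_ ?_ (hfin X _)
    · rintro t ⟨h3, hal, m, h4, h5, h6⟩
      obtain ⟨h7, h8, h9⟩ := h3 0
      obtain ⟨hal1, hal2, -⟩ := hal 0
      have h10 : ((t 0 - 1).toNat : ℤ) = t 0 - 1 := by omega
      have h10a : (t 0 - 1).natAbs = (t 0 - 1).toNat := by omega
      have h10b : (t 0).natAbs = (t 0 - 1).toNat + 1 := by omega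
      have h10r : (((t 0 - 1).toNat : ℕ) : ℝ) = (t 0 : ℝ) - 1 := by exact_mod_cast h10
      refine ⟨by omega, ?_, ?_, by rw [← h10a]; exact hal2.2, by rw [← h10b]; exact hal1.2, m, h4, h5, ?_⟩
      · rw [h10r]
        push_cast at h8
        rw [abs_of_nonneg (by positivity)] at h8
        nlinarith
      · rw [h10]
        have h11 := h9.sub (Int.ModEq.refl (n := (Q : ℤ)) 1)
        simpa using h11
      · exact quot_pos _ m _ h4 (by omega) t (by omega) h6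
    · rintro t ⟨h3, -⟩ t' ⟨h3', -⟩ htt
      have h7 := (h3 0).1
      have h7' := (h3' 0).1
      have htt' : (t 0 - 1).toNat = (t' 0 - 1).toNat := htt
      funext j
      rw [Subsingleton.elim j 0]
      omega
  · obtain ⟨Y, hY⟩ : ∃ Y : ℕ, Y = ⌊(1 + ε) * X⌋₊ := ⟨_, rfl⟩
    have hY1 : (Y : ℝ) ≤ (1 + ε) * X := by
      rw [hY]
      exact Nat.floor_le (by positivity)
    have hY2 : (1 + ε) * X < Y + 1 := by
      rw [hY]
      exact Nat.lt_floor_add_one _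
    have hYX : X ≤ Y := by
      rw [hY]
      refine Nat.le_floor ?_
      nlinarith
    have hY3 : (X : ℝ) < (1 - e) * Y := by
      have h3 : e * (Y : ℝ) ≤ ε / 2 * X := by
        calc e * (Y : ℝ) ≤ e * ((1 + ε) * X) := mul_le_mul_of_nonneg_left hY1 he0.le
          _ = (e * (1 + ε)) * X := by ring
          _ = ε / 2 * X := by rw [he1]
      nlinarith
    have h1 := H (fun _ => -(Y : ℤ) - 1) (fun _ => -a) (fun _ => by
      show (X₀ : ℤ) ≤ |-(Y : ℤ) - 1|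
      rw [abs_of_nonpos (by omega)]
      omega)
    have h2 : δ / 2 ^ C * (X / Real.log X ^ C) ≤ δ * wt C (fun _ : Fin 1 => -(Y : ℤ) - 1) := by
      rw [wt_one]
      have e1 : |((-(Y : ℤ) - 1 : ℤ) : ℝ)| = Y + 1 := by
        push_cast
        rw [abs_of_nonpos (by linarith)]
        ring
      rw [e1, div_mul_eq_mul_div, mul_div_assoc]
      refine mul_le_mul_of_nonneg_left ?_ hδ.le
      have : (X : ℝ) ≤ Y := by exact_mod_cast hYX
      exact wt_ge C X (Y + 1) hX3 (by linarith) (by linarith)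
    refine h2.trans (h1.trans (Nat.cast_le.2 ?_))
    refine Set.ncard_le_ncard_of_injOn (fun t => (-t 0).toNat) ?_ ?_ (hfin X _)
    · rintro t ⟨h3, hal, m, h4, h5, h6⟩
      obtain ⟨h7, h8, h9⟩ := h3 0
      obtain ⟨hal1, hal2, -⟩ := hal 0
      push_cast at h8
      rw [abs_of_nonpos (by linarith)] at h8
      have h12 : (X : ℝ) < -(t 0 : ℝ) := by
        nlinarith
      have h13 : (X : ℤ) < -t 0 := by exact_mod_cast h12
      have h10 : ((-t 0).toNat : ℤ) = -t 0 := by omega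
      have h10r : (((-t 0).toNat : ℕ) : ℝ) = -(t 0 : ℝ) := by exact_mod_cast h10
      have h10a : (t 0).natAbs = (-t 0).toNat := by omega
      have h10b : (t 0 - 1).natAbs = (-t 0).toNat + 1 := by omega
      refine ⟨by omega, ?_, ?_, by rw [← h10a]; exact hal1.2, by rw [← h10b]; exact hal2.2, m, h4, h5, ?_⟩
      · rw [h10r]
        have h14 : -t 0 ≤ (Y : ℤ) := by omega
        have h15 : -(t 0 : ℝ) ≤ Y := by exact_mod_cast h14
        linarith
      · rw [h10]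
        have h11 := h9.neg
        simpa using h11
      · exact quot_neg _ m _ h4 (by omega) t (by omega) h6
    · rintro t ⟨h3, -⟩ t' ⟨h3', -⟩ htt
      have htt' : (-t 0).toNat = (-t' 0).toNat := htt
      have key : ∀ t : Fin 1 → ℤ, (∀ j, -(Y : ℤ) - 1 < t j ∧
          (t j : ℝ) ≤ ((-(Y : ℤ) - 1 : ℤ) : ℝ) + e * |((-(Y : ℤ) - 1 : ℤ) : ℝ)| ∧ t j ≡ -a [ZMOD Q]) → t 0 < 0 := by
        intro t h3
        obtain ⟨h7, h8, h9⟩ := h3 0
        push_cast at h8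
        rw [abs_of_nonpos (by linarith)] at h8
        have h12 : (X : ℝ) < -(t 0 : ℝ) := by
          nlinarith
        have h13 : (X : ℤ) < -t 0 := by exact_mod_cast h12
        omega
      have k1 := key t h3
      have k2 := key t' h3'
      funext j
      rw [Subsingleton.elim j 0]
      omega

end Pool.Agent.H92.AP
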