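import Pool.Agent.H92.AP.Sma
import Pool.Agent.H92.AP.Siv

/-!
# THEOREM AP: many integers in an interval at which finitely many linear forms are almost prime

`alm`: for at most `N` forms `f.1 u + f.2`, `0 < |f.1| ≤ c`, there are at least `δ Y / (log Y) ^ C` integers `u` in the interval `(A, B]`
(`ρ Y ≤ B - A`) at which all the values of size at most `Y ^ 2` have at most `R` prime factors; `R, C, δ` do not depend on the `f.2`.
-/

set_option autoImplicit false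

namespace Pool.Agent.H92.AP

open Finset

/-- the roots of the forms modulo `p` -/
def rts (F : Finset (ℤ × ℤ)) (p : ℕ) : Finset ℤ :=
  ((range p).image fun n : ℕ => (n : ℤ)).filter fun r => ∃ f ∈ F, (p : ℤ) ∣ f.1 * r + f.2

theorem mem_rts {F : Finset (ℤ × ℤ)} {p : ℕ} {r : ℤ} :
    r ∈ rts F p ↔ (0 ≤ r ∧ r < p) ∧ ∃ f ∈ F, (p : ℤ) ∣ f.1 * r + f.2 := by
  unfold rts
  rw [mem_filter, mem_image]
  refine and_congr_left fun _ => ?_
  constructor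
  · rintro ⟨n, hn, rfl⟩
    rw [mem_range] at hn
    exact ⟨by positivity, by exact_mod_cast hn⟩
  · rintro ⟨h0, h1⟩
    exact ⟨r.toNat, by rw [mem_range]; omega, by omega⟩

theorem card_rts (F : Finset (ℤ × ℤ)) (c : ℤ) (hc : ∀ f ∈ F, f.1 ≠ 0 ∧ |f.1| ≤ c) (p : ℕ) (hp : p.Prime)
    (hcp : c < p) : (rts F p).card ≤ F.card := by
  classical
  have h1 : ∀ r ∈ rts F p, ∃ f ∈ F, (p : ℤ) ∣ f.1 * r + f.2 := fun r hr => (mem_rts.1 hr).2
  choose! φ h2 h3 using h1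
  refine card_le_card_of_injOn φ h2 ?_
  intro r hr r' hr' heq
  have e1 := h3 r hr
  have e2 := h3 r' hr'
  rw [← heq] at e2
  have hf := hc _ (h2 r hr)
  have e3 : (p : ℤ) ∣ (φ r).1 * (r - r') := by
    have := dvd_sub e1 e2
    have e4 : (φ r).1 * r + (φ r).2 - ((φ r).1 * r' + (φ r).2) = (φ r).1 * (r - r') := by ring
    rwa [e4] at this
  rcases (Nat.prime_iff_prime_int.1 hp).dvd_or_dvd e3 with h | h
  · exfalso
    have := Int.le_of_dvd (abs_pos.2 hf.1) ((dvd_abs _ _).2 h)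
    linarith [hf.2]
  · have a1 := (mem_rts.1 hr).1
    have a2 := (mem_rts.1 hr').1
    have h5 : |r - r'| < p := by
      rw [abs_lt]
      constructor <;> omega
    have h6 := Int.eq_zero_of_abs_lt_dvd h h5
    omega

theorem alm (N : ℕ) (c : ℤ) (ρ : ℝ) (hρ : 0 < ρ) : ∃ (R C : ℕ) (δ Y₀ : ℝ), 0 < δ ∧ 3 ≤ Y₀ ∧ ∀ Y : ℝ, Y₀ ≤ Y →
    ∀ F : Finset (ℤ × ℤ), F.card ≤ N → (∀ f ∈ F, f.1 ≠ 0 ∧ |f.1| ≤ c) → ∀ A B : ℤ, ρ * Y ≤ (B : ℝ) - A →
    ∃ S : Finset ℤ, S ⊆ Ioc A B ∧ δ * (Y / Real.log Y ^ C) ≤ S.card ∧ ∀ u ∈ S, ∀ f ∈ F,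
      f.1 * u + f.2 ≠ 0 ∧ (|((f.1 * u + f.2 : ℤ) : ℝ)| ≤ Y ^ 2 → (f.1 * u + f.2).natAbs.primeFactorsList.length ≤ R) := by
  classical
  obtain ⟨w0, hw0, hsv⟩ := sv N
  obtain ⟨w, hw⟩ : ∃ w : ℕ, w = max w0 c.toNat := ⟨_, rfl⟩
  have hw1 : w0 ≤ w := by rw [hw]; exact le_max_left _ _
  have hw2 : c ≤ w := by
    have : c.toNat ≤ w := by rw [hw]; exact le_max_right _ _
    omega
  obtain ⟨e, he⟩ : ∃ e : ℕ, (max c 0) * (N * (w + 1) + 1) < 2 ^ e := by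
    refine ⟨((max c 0) * (N * (w + 1) + 1)).toNat, ?_⟩
    have h1 : 0 ≤ (max c 0) * (N * (w + 1) + 1) := mul_nonneg (le_max_right _ _) (by positivity)
    have h2 : ((max c 0) * (N * (w + 1) + 1)).toNat < 2 ^ ((max c 0) * (N * (w + 1) + 1)).toNat := Nat.lt_two_pow_self
    have h3 : ((((max c 0) * (N * (w + 1) + 1)).toNat : ℕ) : ℤ) < 2 ^ ((max c 0) * (N * (w + 1) + 1)).toNat := by
      exact_mod_cast h2
    rwa [Int.toNat_of_nonneg h1] at h3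
  obtain ⟨m, hm⟩ : ∃ m : ℕ, m = w.factorial ^ e := ⟨_, rfl⟩
  have hm0 : 0 < m := by rw [hm]; exact pow_pos w.factorial_pos e
  have hmc : ∀ p : ℕ, p.Prime → w < p → m.Coprime p := by
    intro p hp hwp
    rw [hm]
    refine Nat.Coprime.pow_left e ?_
    rw [Nat.coprime_comm, hp.coprime_iff_not_dvd, hp.dvd_factorial]
    omega
  obtain ⟨a, δ, Y₀, ha0, ha1, hδ, hY₀, H⟩ := hsv w m hw1 hm0 hmc ρ hρ
  obtain ⟨s, hs⟩ : ∃ s : ℕ, 2 / a ≤ s := ⟨⌈2 / a⌉₊, Nat.le_ceil _⟩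
  refine ⟨(w + 1) * e + s, 2 * (N + 1), δ, Y₀, hδ, hY₀, ?_⟩
  intro Y hY F hF hc A B hAB
  have hY3 : 3 ≤ Y := hY₀.trans hY
  have hY0 : 0 < Y := by linarith
  obtain ⟨v₀, hv₀⟩ := small F (max c 0) (fun f hf => ⟨(hc f hf).1, (hc f hf).2.trans (le_max_left _ _)⟩) w e (by
    refine lt_of_le_of_lt (mul_le_mul_of_nonneg_left ?_ (le_max_right _ _)) he
    have : (F.card : ℤ) ≤ N := by exact_mod_cast hF
    have h1 : (F.card : ℤ) * (w + 1) ≤ N * (w + 1) := mul_le_mul_of_nonneg_right this (by positivity)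
    linarith)
  obtain ⟨S, hS1, hS2, hS3⟩ := H Y hY (rts F) (fun p hp hwp => ⟨(card_rts F c hc p hp (by
    have : (w : ℤ) < p := by exact_mod_cast hwp
    linarith)).trans hF, fun r hr => (mem_rts.1 hr).1⟩) A B v₀ hAB
  refine ⟨S, hS1, hS2, fun u hu f hf => ?_⟩
  obtain ⟨h1, h2⟩ := hS3 u hu
  have hsm : ∀ q : ℕ, q.Prime → q ≤ w → ¬ (q : ℤ) ^ e ∣ f.1 * u + f.2 := by
    intro q hq hqw hd
    refine hv₀ f hf q hq hqw ?_
    have h3 : (q : ℤ) ^ e ∣ u - v₀ := by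
      have h4 : ((q ^ e : ℕ) : ℤ) ∣ (m : ℤ) := by
        rw [hm]
        exact Int.natCast_dvd_natCast.2 (pow_dvd_pow_of_dvd ((hq.dvd_factorial).2 hqw) e)
      have h5 : (m : ℤ) ∣ u - v₀ := (Int.modEq_iff_dvd.1 h1.symm)
      push_cast at h4
      exact h4.trans h5
    have h6 := dvd_sub hd (h3.mul_left f.1)
    have e1 : f.1 * u + f.2 - f.1 * (u - v₀) = f.1 * v₀ + f.2 := by ring
    rwa [e1] at h6
  have hne : f.1 * u + f.2 ≠ 0 := by
    intro h0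
    refine hsm 2 Nat.prime_two (by omega) ?_
    rw [h0]
    exact dvd_zero _
  refine ⟨hne, fun hsize => ?_⟩
  have hz1 : 1 < Y ^ a := Real.one_lt_rpow (by linarith) ha0
  refine om _ (Int.natAbs_ne_zero.2 hne) w e s (Y ^ a) hz1 ?_ ?_ ?_
  · intro q hq hqw hd
    refine hsm q hq hqw ?_
    have h3 := Int.natCast_dvd.2 hd
    push_cast at h3
    exact h3
  · intro p hp hwp hpY hd
    refine h2 p hp hwp hpY ?_
    have hp0 : (0 : ℤ) < p := by exact_mod_cast hp.pos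
    refine mem_rts.2 ⟨⟨Int.emod_nonneg _ hp0.ne', Int.emod_lt_of_pos _ hp0⟩, f, hf, ?_⟩
    have h3 := Int.natCast_dvd.2 hd
    have h4 : (p : ℤ) ∣ u % p - u := by
      rw [← dvd_neg, neg_sub]
      exact Int.dvd_self_sub_emod
    have h5 := dvd_add h3 (h4.mul_left f.1)
    have e1 : f.1 * u + f.2 + f.1 * (u % p - u) = f.1 * (u % p) + f.2 := by ring
    rwa [e1] at h5
  · have h3 : (((f.1 * u + f.2).natAbs : ℕ) : ℝ) = |((f.1 * u + f.2 : ℤ) : ℝ)| := by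
      rw [Nat.cast_natAbs, Int.cast_abs]
    rw [h3]
    refine hsize.trans ?_
    rw [← Real.rpow_natCast (Y ^ a) s, ← Real.rpow_mul hY0.le, ← Real.rpow_natCast Y 2]
    refine Real.rpow_le_rpow_of_exponent_le (by linarith) ?_
    rw [div_le_iff₀ ha0] at hs
    push_cast
    linarith

end Pool.Agent.H92.AP
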