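import Pool.Agent.H92.AP.Def

/-!
# THEOREM AP: counting integers in an interval in a class and in given residue classes modulo the primes of a set

`cnt`: `|#{u ∈ (A, B] : u ≡ a (m), u mod p ∈ R p for all p ∈ S} - (B - A)/m ∏ |R p|/p| ≤ ∏ |R p|`. Induction on `S`.
-/

set_option autoImplicit false

namespace Pool.Agent.H92.AP

open Finset

theorem cnt0 (A B : ℤ) (hAB : A ≤ B) (m : ℕ) (a : ℤ) (hm : 0 < m) :
    |(((Ioc A B).filter fun u => u ≡ a [ZMOD m]).card : ℝ) - ((B : ℝ) - A) / m| ≤ 1 := by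
  have h1 := Int.Ioc_filter_modEq_card A B (r := (m : ℤ)) (by exact_mod_cast hm) a
  have hmq : (0 : ℚ) < m := by exact_mod_cast hm
  obtain ⟨x, hx⟩ : ∃ x : ℚ, x = ((B : ℚ) - a) / ((m : ℤ) : ℚ) := ⟨_, rfl⟩
  obtain ⟨y, hy⟩ : ∃ y : ℚ, y = ((A : ℚ) - a) / ((m : ℤ) : ℚ) := ⟨_, rfl⟩
  rw [← hx, ← hy] at h1
  have hxy : y ≤ x := by
    rw [hx, hy]
    refine div_le_div_of_nonneg_right ?_ (by exact_mod_cast hm.le)
    have : (A : ℚ) ≤ B := by exact_mod_cast hAB
    linarith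
  have h2 : 0 ≤ ⌊x⌋ - ⌊y⌋ := sub_nonneg.2 (Int.floor_le_floor hxy)
  rw [max_eq_left h2] at h1
  have h3 : ((((Ioc A B).filter fun u => u ≡ a [ZMOD m]).card : ℤ) : ℚ) = ⌊x⌋ - ⌊y⌋ := by
    rw [h1]
    push_cast
    ring
  have h4 : |((((Ioc A B).filter fun u => u ≡ a [ZMOD m]).card : ℤ) : ℚ) - ((B : ℚ) - A) / m| ≤ 1 := by
    rw [h3]
    have e1 : ((B : ℚ) - A) / m = x - y := by
      rw [hx, hy]
      push_cast
      ring
    rw [e1, abs_le]
    have a1 := Int.floor_le x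
    have a2 := Int.lt_floor_add_one x
    have a3 := Int.floor_le y
    have a4 := Int.lt_floor_add_one y
    constructor <;> linarith
  have h5 : ((|((((Ioc A B).filter fun u => u ≡ a [ZMOD m]).card : ℤ) : ℚ) - ((B : ℚ) - A) / m| : ℚ) : ℝ) ≤ ((1 : ℚ) : ℝ) := by
    exact_mod_cast h4
  push_cast at h5
  exact h5

theorem cnt (A B : ℤ) (hAB : A ≤ B) (R : ℕ → Finset ℤ) (S : Finset ℕ) :
    (∀ p ∈ S, p.Prime) → (∀ p ∈ S, ∀ r ∈ R p, 0 ≤ r ∧ r < p) →
    ∀ (m : ℕ) (a : ℤ), 0 < m → (∀ p ∈ S, m.Coprime p) →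
    |(((Ioc A B).filter fun u => u ≡ a [ZMOD m] ∧ ∀ p ∈ S, u % (p : ℤ) ∈ R p).card : ℝ) -
      ((B : ℝ) - A) / m * ∏ p ∈ S, ((R p).card : ℝ) / p| ≤ ∏ p ∈ S, ((R p).card : ℝ) := by
  classical
  induction S using Finset.induction_on with
  | empty =>
    intro _ _ m a hm _
    have h := cnt0 A B hAB m a hm
    simpa using h
  | insert p S hp ih =>
    intro hS hR m a hm hco
    have hpp := hS p (mem_insert_self _ _)
    have hSS : ∀ q ∈ S, q.Prime := fun q hq => hS q (mem_insert_of_mem hq)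
    have hcop := hco p (mem_insert_self _ _)
    have hp0 : (0 : ℤ) < p := by exact_mod_cast hpp.pos
    -- CRT
    have hcrt : ∀ r : ℤ, ∃ a' : ℤ, a' ≡ a [ZMOD m] ∧ a' ≡ r [ZMOD p] := by
      intro r
      obtain ⟨u, v, huv⟩ := (Nat.isCoprime_iff_coprime.2 hcop)
      refine ⟨a * (v * p) + r * (u * m), ?_, ?_⟩
      · refine (Int.modEq_iff_dvd.2 ⟨a * u - r * u, ?_⟩)
        linear_combination (-a) * huv
      · refine (Int.modEq_iff_dvd.2 ⟨r * v - a * v, ?_⟩)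
        linear_combination (-r) * huv
    choose b hb1 hb2 using hcrt
    have hmaps : ∀ u ∈ (Ioc A B).filter (fun u => u ≡ a [ZMOD m] ∧ ∀ q ∈ insert p S, u % (q : ℤ) ∈ R q),
        u % (p : ℤ) ∈ R p := by
      intro u hu
      rw [mem_filter] at hu
      exact hu.2.2 p (mem_insert_self _ _)
    have hcard := card_eq_sum_card_fiberwise (f := fun u : ℤ => u % (p : ℤ)) (t := R p) hmaps
    have hfib : ∀ r ∈ R p, (((Ioc A B).filter (fun u => u ≡ a [ZMOD m] ∧ ∀ q ∈ insert p S, u % (q : ℤ) ∈ R q)).filter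
        fun u => u % (p : ℤ) = r) =
        (Ioc A B).filter (fun u => u ≡ b r [ZMOD ((m * p : ℕ) : ℤ)] ∧ ∀ q ∈ S, u % (q : ℤ) ∈ R q) := by
      intro r hr
      have hr' := hR p (mem_insert_self _ _) r hr
      have hrr : r % (p : ℤ) = r := Int.emod_eq_of_lt hr'.1 hr'.2
      ext u
      simp only [mem_filter]
      have hiff : u ≡ b r [ZMOD ((m * p : ℕ) : ℤ)] ↔ u ≡ a [ZMOD m] ∧ u % (p : ℤ) = r := by
        rw [Nat.cast_mul, ← Int.modEq_and_modEq_iff_modEq_mul (by simpa using hcop)]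
        constructor
        · rintro ⟨h1, h2⟩
          refine ⟨h1.trans (hb1 r), ?_⟩
          have h3 := h2.trans (hb2 r)
          unfold Int.ModEq at h3
          rw [h3, hrr]
        · rintro ⟨h1, h2⟩
          refine ⟨h1.trans (hb1 r).symm, ?_⟩
          have h3 : u ≡ r [ZMOD p] := by
            unfold Int.ModEq
            rw [h2, hrr]
          exact h3.trans (hb2 r).symm
      rw [hiff]
      constructor
      · rintro ⟨⟨h1, h2, h3⟩, h4⟩
        exact ⟨h1, ⟨h2, h4⟩, fun q hq => h3 q (mem_insert_of_mem hq)⟩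
      · rintro ⟨h1, ⟨h2, h4⟩, h3⟩
        refine ⟨⟨h1, h2, fun q hq => ?_⟩, h4⟩
        rcases mem_insert.1 hq with rfl | hq
        · rw [h4]
          exact hr
        · exact h3 q hq
    rw [hcard, sum_congr rfl fun r hr => by rw [hfib r hr]]
    rw [prod_insert hp, prod_insert hp]
    have hmp : 0 < m * p := Nat.mul_pos hm hpp.pos
    have hih := fun r : ℤ => ih hSS (fun q hq => hR q (mem_insert_of_mem hq)) (m * p) (b r) hmp (fun q hq => by
      refine Nat.Coprime.mul_left (hco q (mem_insert_of_mem hq)) ?_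
      rw [Nat.coprime_primes hpp (hSS q hq)]
      rintro rfl
      exact hp hq)
    have hsum : ((B : ℝ) - A) / m * (((R p).card : ℝ) / p * ∏ q ∈ S, ((R q).card : ℝ) / q) =
        ∑ _r ∈ R p, ((B : ℝ) - A) / ((m * p : ℕ) : ℝ) * ∏ q ∈ S, ((R q).card : ℝ) / q := by
      rw [sum_const, nsmul_eq_mul]
      have h1 : (p : ℝ) ≠ 0 := by exact_mod_cast hpp.ne_zero
      have h2 : (m : ℝ) ≠ 0 := by exact_mod_cast hm.ne'
      push_cast
      field_simp
    rw [hsum, Nat.cast_sum, ← sum_sub_distrib]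
    refine (abs_sum_le_sum_abs _ _).trans ?_
    have h9 : ((R p).card : ℝ) * ∏ q ∈ S, ((R q).card : ℝ) = ∑ _r ∈ R p, ∏ q ∈ S, ((R q).card : ℝ) := by
      rw [sum_const, nsmul_eq_mul]
    rw [h9]
    exact sum_le_sum fun r _ => hih r

end Pool.Agent.H92.AP
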