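import Pool.Agent.H34.IR.Def

/-!
# THEOREM AP (MP_8923e7_nt, sharp 88): almost prime ratios, definitions

`Apr R z`: the integer `z` is not `0` and has at most `R` prime factors (with multiplicity).
`Al R t`: all the differences of two different members of the tuple `(0, 1, t 1, ..., t k)` are `Apr R`.
-/

set_option autoImplicit false

namespace Pool.Agent.H92.AP

open Finset

/-- `z ≠ 0` has at most `R` prime factors, counted with multiplicity -/
def Apr (R : ℕ) (z : ℤ) : Prop := z ≠ 0 ∧ z.natAbs.primeFactorsList.length ≤ R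

/-- all differences of the tuple `(0, 1, t 1, ..., t k)` are almost prime -/
def Al {k : ℕ} (R : ℕ) (t : Fin k → ℤ) : Prop :=
  ∀ j, Apr R (t j) ∧ Apr R (t j - 1) ∧ ∀ i, i ≠ j → Apr R (t j - t i)

/-- the counting function `∏ |X j| / (log |X j|)^C` -/
noncomputable def wt {k : ℕ} (C : ℕ) (X : Fin k → ℤ) : ℝ :=
  ∏ j, |(X j : ℝ)| / Real.log |(X j : ℝ)| ^ C

/-- for all thresholds there are far away boxes and classes modulo `Q` in which almost all almost prime `t` satisfy `B M` -/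
def LrgR {k : ℕ} (ε : ℝ) (Q : ℕ) (B : ℤ → (Fin k → ℤ) → Prop) : Prop :=
  ∀ (M : ℤ) (X₀ R C : ℕ) (δ : ℝ), 0 < δ → ∃ X a : Fin k → ℤ, (∀ j, (X₀ : ℤ) ≤ |X j|) ∧
    ∀ S : Finset (Fin k → ℤ), (∀ t ∈ S, t ∈ Pool.Agent.H34.IR.Box ε X ∧ (∀ j, t j ≡ a j [ZMOD Q]) ∧ Al R t ∧ ¬ B M t) →
      (S.card : ℝ) ≤ δ * wt C X

theorem Apr_neg {R : ℕ} {z : ℤ} (h : Apr R z) : Apr R (-z) := by
  refine ⟨neg_ne_zero.2 h.1, ?_⟩
  rw [Int.natAbs_neg]
  exact h.2

end Pool.Agent.H92.AP
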