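import Pool.Agent.H34.IS.Quot
import Pool.Agent.H92.AP.Quot

/-!
(1) For every `Q ≥ 1` and `ε > 0` a positive proportion of the integers `s` in EVERY interval `(X, (1 + ε) X]`, `X ≥ X₀`, and in
EVERY residue class modulo `Q` are, infinitely often, the quotient of two consecutive gaps between primes, in both orders, the
smaller gap being at most `M` (`M` does not depend on `X`, `s` and the class). This is the case `k = 1`, `A = {0, m, m (s + 1)}` or
`A = {- s m, 0, m}`, `G = {0, 1}` of (2).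

(2) Let `k`, `Q ≥ 1`, `ε > 0` and a finite colouring of the naturals be given. For a positive proportion of the integer
vectors `t = (t_1, ..., t_k)` in EVERY large box `X_j < t_j ≤ X_j + ε |X_j|` and in EVERY residue class modulo `Q` there is
`m ≤ M` (`M` does not depend on the box, on the class and on `t`) such that the set `A = {0, m, m t_1, ..., m t_k} =
{e_0 < e_1 < ...}` satisfies the prime tuples conjecture in exact form: for a set `G` of gaps `(e_s, e_(s+1))` (given before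
`t`) which contains at most one pair of adjacent gaps there is a colour `i` such that `A` belongs to a family of finite sets
of integers, the members `F` of which contain `A`, satisfy the prime tuples conjecture in exact form (every subset `F'` of
`F` is, for infinitely many `N`, the exact set of the `b` in `F` or in one of the gaps in `G` with `N + b` a prime of colour
`i`) and can be extended within the family by the elements of a set of positive upper density.

(3), (4) The same for ALMOST PRIME ratios: in EVERY interval `(X, (1 + ε) X]`, `X ≥ X₀`, and EVERY class modulo `Q` at least `δ X / (log X)^C` integers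
`s` such that `s` and `s + 1` have at most `R` prime factors are quotients as in (1); and in EVERY box and class as in (2) at least
`δ ∏ |X_j| / (log |X_j|)^C` of the `t` are as in (2) and all the differences of two different members of the tuple `(0, 1, t_1, ..., t_k)` are `≠ 0` and
have at most `R` prime factors (so all the differences of the primes `N`, `N + m`, `N + m t_j` have at most `R + log_2 M` prime factors).
-/

namespace Pool.Agent.H92.AP.Draft

open Filter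

/-- `G` contains at most one pair of adjacent numbers -/
def OnePair (G : Set ℕ) : Prop := ∀ s ∈ G, ∀ t ∈ G, s + 1 ∈ G → t + 1 ∈ G → s = t

/-- `b` is not in `A`, for some `t ∈ G` exactly `t + 1` elements of `A` are smaller than `b`, and at least one
is larger: if `e_0 < e_1 < ...` are the elements of `A`, then `b` lies strictly between `e_t` and `e_(t+1)` for
some `t ∈ G` -/
def InGap (G : Set ℕ) (A : Finset ℤ) (b : ℤ) : Prop :=
  b ∉ A ∧ (∃ t ∈ G, (A.filter (fun x => x < b)).card = t + 1) ∧ ∃ x ∈ A, b < x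

/-- every subset `F'` of `F` is, for infinitely many `N`, the set of all `b` in `F` or in a gap of `A` with
number in `G` such that `N + b` is a prime of colour `i` -/
def Exact {r : ℕ} (c : ℕ → Fin r) (i : Fin r) (G : Set ℕ) (A F : Finset ℤ) : Prop :=
  ∀ F' : Finset ℤ, F' ⊆ F → {N : ℕ | ∀ b : ℤ, (b ∈ F ∨ InGap G A b) →
    ((((N : ℤ) + b).toNat.Prime ∧ c ((N : ℤ) + b).toNat = i) ↔ b ∈ F')}.Infinite

/-- positive upper density of a set of natural numbers -/
def PosUpperDensity (Y : Set ℕ) : Prop :=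
  ∃ δ : ℝ, 0 < δ ∧ ∃ᶠ X : ℕ in atTop, δ * X ≤ ((Y ∩ Set.Iio X).ncard : ℝ)

/-- for some colour `i`, the set `A` belongs to a family of finite sets which contain `A`, have the exact
pattern property `Exact`, and can be extended within the family by the elements of a set of positive upper
density -/
def Extendable {r : ℕ} (c : ℕ → Fin r) (G : Set ℕ) (A : Finset ℤ) : Prop :=
  ∃ (i : Fin r) (𝓕 : Set (Finset ℤ)), A ∈ 𝓕 ∧
    ∀ F ∈ 𝓕, A ⊆ F ∧ Exact c i G A F ∧ PosUpperDensity {y : ℕ | insert (y : ℤ) F ∈ 𝓕}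

/-- the gap between the primes number `n` and `n + 1` (the prime number `0` is `2`) -/
noncomputable def gap (n : ℕ) : ℕ := Nat.nth Nat.Prime (n + 1) - Nat.nth Nat.Prime n

/-- `z` is not `0` and has at most `R` prime factors, counted with multiplicity -/
def AlmostPrime (R : ℕ) (z : ℤ) : Prop := z ≠ 0 ∧ z.natAbs.primeFactorsList.length ≤ R

/-- **Theorem.** -/
theorem result :
    ((∀ (Q : ℕ) (ε : ℝ), 0 < Q → 0 < ε → ∃ (M X₀ : ℕ) (δ : ℝ), 0 < δ ∧ ∀ (X : ℕ) (a : ℤ), X₀ ≤ X →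
      δ * X ≤ (({s : ℕ | X < s ∧ (s : ℝ) ≤ (1 + ε) * X ∧ (s : ℤ) ≡ a [ZMOD Q] ∧ ∃ m : ℕ, 1 ≤ m ∧ m ≤ M ∧
        {n : ℕ | gap n = m ∧ gap (n + 1) = s * m}.Infinite}).ncard : ℝ) ∧
      δ * X ≤ (({s : ℕ | X < s ∧ (s : ℝ) ≤ (1 + ε) * X ∧ (s : ℤ) ≡ a [ZMOD Q] ∧ ∃ m : ℕ, 1 ≤ m ∧ m ≤ M ∧
        {n : ℕ | gap n = s * m ∧ gap (n + 1) = m}.Infinite}).ncard : ℝ)) ∧
    ∀ (r k Q : ℕ) (c : ℕ → Fin r) (ε : ℝ), 0 < Q → 0 < ε → ∃ (M X₀ : ℕ) (δ : ℝ), 0 < δ ∧
      ∀ G : Set ℕ, OnePair G → ∀ X a : Fin k → ℤ, (∀ j, (X₀ : ℤ) ≤ |X j|) →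
        δ * ∏ j, |(X j : ℝ)| ≤ (({t : Fin k → ℤ |
          (∀ j, X j < t j ∧ (t j : ℝ) ≤ X j + ε * |(X j : ℝ)| ∧ t j ≡ a j [ZMOD Q]) ∧
            ∃ m : ℕ, 1 ≤ m ∧ m ≤ M ∧ Extendable c G
              (insert 0 (insert (m : ℤ) (Finset.univ.image fun j => (m : ℤ) * t j)))}).ncard : ℝ)) ∧
    (∀ (Q : ℕ) (ε : ℝ), 0 < Q → 0 < ε → ∃ (M X₀ R C : ℕ) (δ : ℝ), 0 < δ ∧ ∀ (X : ℕ) (a : ℤ), X₀ ≤ X →
      δ * (X / Real.log X ^ C) ≤ (({s : ℕ | X < s ∧ (s : ℝ) ≤ (1 + ε) * X ∧ (s : ℤ) ≡ a [ZMOD Q] ∧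
        s.primeFactorsList.length ≤ R ∧ (s + 1).primeFactorsList.length ≤ R ∧ ∃ m : ℕ, 1 ≤ m ∧ m ≤ M ∧
        {n : ℕ | gap n = m ∧ gap (n + 1) = s * m}.Infinite}).ncard : ℝ) ∧
      δ * (X / Real.log X ^ C) ≤ (({s : ℕ | X < s ∧ (s : ℝ) ≤ (1 + ε) * X ∧ (s : ℤ) ≡ a [ZMOD Q] ∧
        s.primeFactorsList.length ≤ R ∧ (s + 1).primeFactorsList.length ≤ R ∧ ∃ m : ℕ, 1 ≤ m ∧ m ≤ M ∧
        {n : ℕ | gap n = s * m ∧ gap (n + 1) = m}.Infinite}).ncard : ℝ)) ∧
    ∀ (r k Q : ℕ) (c : ℕ → Fin r) (ε : ℝ), 0 < Q → 0 < ε → ∃ (M X₀ R C : ℕ) (δ : ℝ), 0 < δ ∧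
      ∀ G : Set ℕ, OnePair G → ∀ X a : Fin k → ℤ, (∀ j, (X₀ : ℤ) ≤ |X j|) →
        δ * ∏ j, |(X j : ℝ)| / Real.log |(X j : ℝ)| ^ C ≤ (({t : Fin k → ℤ |
          (∀ j, X j < t j ∧ (t j : ℝ) ≤ X j + ε * |(X j : ℝ)| ∧ t j ≡ a j [ZMOD Q]) ∧
            (∀ j, AlmostPrime R (t j) ∧ AlmostPrime R (t j - 1) ∧ ∀ i, i ≠ j → AlmostPrime R (t j - t i)) ∧
            ∃ m : ℕ, 1 ≤ m ∧ m ≤ M ∧ Extendable c G
              (insert 0 (insert (m : ℤ) (Finset.univ.image fun j => (m : ℤ) * t j)))}).ncard : ℝ) :=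
  ⟨⟨fun Q ε hQ hε => Pool.Agent.H34.IS.quot Q ε hQ hε,
    fun r k Q c ε hQ hε => Pool.Agent.H34.IS.main_uni r k Q c ε hQ hε⟩,
    fun Q ε hQ hε => Pool.Agent.H92.AP.quot' Q ε hQ hε,
    fun r k Q c ε hQ hε => Pool.Agent.H92.AP.main_uni' r k Q c ε hQ hε⟩

end Pool.Agent.H92.AP.Draft
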