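import Pool.Agent.H92.AP.Step
import Pool.Agent.H34.IS.Fin

/-!
# THEOREM AP (MP_8923e7_nt, sharp 88): almost prime ratios

`main_uni'`: for every colouring with finitely many colours, every `Gs` with `OnePair`, all boxes and classes there are at least `δ ∏ |X j| / (log |X j|)^C`
tuples `t` in the box and the classes, all whose differences (of the tuple `0, 1, t 1, .., t k`) have at most `R` prime factors, such that
`{0, m, m t 1, .., m t k}` is extendable for some `m ≤ M`.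
-/

set_option autoImplicit false

namespace Pool.Agent.H92.AP

open Finset Pool.Agent.H92.ST Pool.Agent.H34.IR Pool.Agent.H34.IS Pool.Agent.H21.CT

theorem main' (r k Q : ℕ) (c : ℕ → Fin r) (ε : ℝ) (Gs : Set ℕ) (hG : OnePair Gs) (hQ : 0 < Q) (hε : 0 < ε) :
    ∃ (M X₀ R C : ℕ) (δ : ℝ), 0 < δ ∧ ∀ X a : Fin k → ℤ, (∀ j, (X₀ : ℤ) ≤ |X j|) →
      δ * wt C X ≤ (({t : Fin k → ℤ |
        (∀ j, X j < t j ∧ (t j : ℝ) ≤ X j + ε * |(X j : ℝ)| ∧ t j ≡ a j [ZMOD Q]) ∧ Al R t ∧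
          ∃ m : ℕ, 1 ≤ m ∧ m ≤ M ∧ ExtG Gs c (dil (m : ℤ) t)}).ncard : ℝ) := by
  classical
  by_contra hcon
  push Not at hcon
  obtain ⟨e, he⟩ : ∃ e : ℝ, e = min ε (1 / 2) := ⟨_, rfl⟩
  have he0 : 0 < e := by
    rw [he]
    exact lt_min hε (by norm_num)
  have he1 : e < 1 := by
    rw [he]
    exact lt_of_le_of_lt (min_le_right _ _) (by norm_num)
  have heε : e ≤ ε := by
    rw [he]
    exact min_le_left _ _
  -- the gaps which occur
  obtain ⟨G, hGd⟩ : ∃ G : Finset ℕ, G = (range (k + 1)).filter (fun t => t ∈ Gs) := ⟨_, rfl⟩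
  have hco : (↑G : Set ℕ) = Gs ∩ Set.Iio (k + 1) := by
    ext t
    rw [hGd]
    simp only [coe_filter, mem_range, Set.mem_ofPred_eq, Set.mem_inter_iff, Set.mem_Iio]
    tauto
  obtain ⟨j₀, hj₀⟩ := iso1_of_onePair (k := k + 1) (G := G) (by
    rw [hGd]
    exact filter_subset _ _) (by
    rw [hco]
    intro s hs t ht hs1 ht1
    exact hG s hs.1 t ht.1 hs1.1 ht1.1)
  rw [hco] at hj₀
  refine not_tree c (k + 1) (by omega) hj₀ fun s d W hs hW => ?_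
  have hB : Bld (fun M t => ¬ GoodX (k := k) (Gs ∩ Set.Iio (k + 1)) c M t) s d := by
    refine bld_all' Q hQ e he0 he1 _ ?_ ?_ s d hs
    · rintro M M' t hMM h1 ⟨m, h2, h3, h4⟩
      exact h1 ⟨m, h2, h3.trans hMM, h4⟩
    · intro M X₀ R C δ hδ
      obtain ⟨X, a, hX, hlt⟩ := hcon M.toNat X₀ R C δ hδ
      refine ⟨X, a, hX, fun S hS => le_trans ?_ hlt.le⟩
      rw [← Set.ncard_coe_finset]
      refine Nat.cast_le.2 (Set.ncard_le_ncard ?_ ?_)
      · intro t ht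
        obtain ⟨h1, h2, hal, h3⟩ := hS t (Finset.mem_coe.1 ht)
        replace h3 := not_not.1 h3
        unfold Box at h1
        rw [Fintype.mem_piFinset] at h1
        obtain ⟨m, hm1, hm2, hi⟩ := h3
        refine ⟨fun j => ?_, hal, m, hm1, by omega, ext_restrict (card_dil _ _) hi⟩
        have h4 := mem_Ioc.1 (h1 j)
        refine ⟨h4.1, ?_, h2 j⟩
        have h5 : (t j : ℝ) ≤ X j + ⌊e * |(X j : ℝ)|⌋ := by exact_mod_cast h4.2
        have h6 : (⌊e * |(X j : ℝ)|⌋ : ℝ) ≤ e * |(X j : ℝ)| := Int.floor_le _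
        have h7 : e * |(X j : ℝ)| ≤ ε * |(X j : ℝ)| := mul_le_mul_of_nonneg_right heε (abs_nonneg _)
        linarith
      · refine Set.Finite.subset (Box ε X).finite_toSet ?_
        intro t ht
        rw [Finset.mem_coe]
        unfold Box
        rw [Fintype.mem_piFinset]
        intro j
        obtain ⟨h1, h2, _⟩ := ht.1 j
        rw [mem_Ioc]
        refine ⟨h1, ?_⟩
        have h3 : ((t j - X j : ℤ) : ℝ) ≤ ε * |(X j : ℝ)| := by
          push_cast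
          linarith
        have h4 := Int.le_floor.2 h3
        omega
  obtain ⟨V, hV, hN, hS⟩ := hB (W : ℤ) (by omega)
  refine ⟨(pts V).image fun x => (W : ℤ) * x, ?_, ?_⟩
  · exact trZ_of_nodes (W : ℤ) (by exact_mod_cast hW) _
      (fun u hu σ hσ => bad_of_NP _ c (W : ℤ) (by exact_mod_cast hW) u hu σ hσ) s hs d V hV hN hS
  · intro x hx
    obtain ⟨y, -, rfl⟩ := mem_image.1 hx
    exact Dvd.intro _ rfl

theorem Al_mono {k R R' : ℕ} (h : R ≤ R') {t : Fin k → ℤ} (ht : Al R t) : Al R' t := by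
  intro j
  obtain ⟨h1, h2, h3⟩ := ht j
  exact ⟨⟨h1.1, h1.2.trans h⟩, ⟨h2.1, h2.2.trans h⟩, fun i hi => ⟨(h3 i hi).1, (h3 i hi).2.trans h⟩⟩

theorem wt_nonneg {k : ℕ} (C : ℕ) (X : Fin k → ℤ) (hX : ∀ j, 3 ≤ |X j|) : 0 ≤ wt C X := by
  unfold wt
  refine prod_nonneg fun j _ => ?_
  have h1 : (3 : ℝ) ≤ |(X j : ℝ)| := by exact_mod_cast hX j
  have h2 : 0 ≤ Real.log |(X j : ℝ)| := Real.log_nonneg (by linarith)
  positivity

theorem wt_anti {k : ℕ} {C C' : ℕ} (h : C ≤ C') (X : Fin k → ℤ) (hX : ∀ j, 3 ≤ |X j|) : wt C' X ≤ wt C X := by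
  unfold wt
  refine prod_le_prod (fun j _ => ?_) fun j _ => ?_
  · have h1 : (3 : ℝ) ≤ |(X j : ℝ)| := by exact_mod_cast hX j
    have h2 : 0 ≤ Real.log |(X j : ℝ)| := Real.log_nonneg (by linarith)
    positivity
  · have h1 : (3 : ℝ) ≤ |(X j : ℝ)| := by exact_mod_cast hX j
    have h2 : 1 ≤ Real.log |(X j : ℝ)| := by
      rw [Real.le_log_iff_exp_le (by linarith)]
      linarith [Real.exp_one_lt_d9]
    refine div_le_div_of_nonneg_left (by linarith) (by positivity) ?_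
    exact pow_le_pow_right₀ h2 h

/-- THEOREM AP: the constants do not depend on `Gs` -/
theorem main_uni' (r k Q : ℕ) (c : ℕ → Fin r) (ε : ℝ) (hQ : 0 < Q) (hε : 0 < ε) :
    ∃ (M X₀ R C : ℕ) (δ : ℝ), 0 < δ ∧ ∀ Gs : Set ℕ, OnePair Gs → ∀ X a : Fin k → ℤ, (∀ j, (X₀ : ℤ) ≤ |X j|) →
      δ * wt C X ≤ (({t : Fin k → ℤ |
        (∀ j, X j < t j ∧ (t j : ℝ) ≤ X j + ε * |(X j : ℝ)| ∧ t j ≡ a j [ZMOD Q]) ∧ Al R t ∧
          ∃ m : ℕ, 1 ≤ m ∧ m ≤ M ∧ ExtG Gs c (dil (m : ℤ) t)}).ncard : ℝ) := by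
  classical
  have hex : ∀ G : Finset ℕ, ∃ (M X₀ R C : ℕ) (δ : ℝ), 0 < δ ∧ (OnePair (↑G : Set ℕ) → ∀ X a : Fin k → ℤ,
      (∀ j, (X₀ : ℤ) ≤ |X j|) → δ * wt C X ≤ (({t : Fin k → ℤ |
        (∀ j, X j < t j ∧ (t j : ℝ) ≤ X j + ε * |(X j : ℝ)| ∧ t j ≡ a j [ZMOD Q]) ∧ Al R t ∧
          ∃ m : ℕ, 1 ≤ m ∧ m ≤ M ∧ ExtG (↑G : Set ℕ) c (dil (m : ℤ) t)}).ncard : ℝ)) := by
    intro G
    by_cases hG : OnePair (↑G : Set ℕ)
    · obtain ⟨M, X₀, R, C, δ, hδ, h⟩ := main' r k Q c ε (↑G : Set ℕ) hG hQ hε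
      exact ⟨M, X₀, R, C, δ, hδ, fun _ => h⟩
    · exact ⟨0, 0, 0, 0, 1, one_pos, fun h => absurd h hG⟩
  choose M X₀ R C δ hδ H using hex
  obtain ⟨P, hP⟩ : ∃ P : Finset (Finset ℕ), P = (range (k + 1)).powerset := ⟨_, rfl⟩
  have hPne : P.Nonempty := by
    rw [hP]
    exact ⟨∅, empty_mem_powerset _⟩
  obtain ⟨G₀, hG₀, hmin⟩ := exists_min_image P δ hPne
  refine ⟨P.sup M, max 3 (P.sup X₀), P.sup R, P.sup C, δ G₀, hδ G₀, fun Gs hGs X a hX => ?_⟩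
  have hX3 : ∀ j, 3 ≤ |X j| := fun j => by
    have h1 := hX j
    have h2 : (3 : ℕ) ≤ max 3 (P.sup X₀) := le_max_left _ _
    have h3 : ((3 : ℕ) : ℤ) ≤ ((max 3 (P.sup X₀) : ℕ) : ℤ) := by exact_mod_cast h2
    push_cast at h3 h1
    omega
  obtain ⟨G, hGd⟩ : ∃ G : Finset ℕ, G = (range (k + 1)).filter (fun t => t ∈ Gs) := ⟨_, rfl⟩
  have hGP : G ∈ P := by
    rw [hP, mem_powerset, hGd]
    exact filter_subset _ _
  have hco : (↑G : Set ℕ) = Gs ∩ Set.Iio (k + 1) := by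
    ext t
    rw [hGd]
    simp only [coe_filter, mem_range, Set.mem_ofPred_eq, Set.mem_inter_iff, Set.mem_Iio]
    tauto
  have hone : OnePair (↑G : Set ℕ) := by
    rw [hco]
    intro s hs t ht hs1 ht1
    exact hGs s hs.1 t ht.1 hs1.1 ht1.1
  have hM : M G ≤ P.sup M := le_sup (f := M) hGP
  have hR : R G ≤ P.sup R := le_sup (f := R) hGP
  have hC : C G ≤ P.sup C := le_sup (f := C) hGP
  have hX₀ : X₀ G ≤ max 3 (P.sup X₀) := (le_sup (f := X₀) hGP).trans (le_max_right _ _)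
  have h1 := H G hone X a (fun j => le_trans (by exact_mod_cast hX₀) (hX j))
  have h2 : δ G₀ * wt (P.sup C) X ≤ δ G * wt (C G) X :=
    mul_le_mul (hmin G hGP) (wt_anti hC X hX3) (wt_nonneg _ X hX3) (hδ G).le
  refine h2.trans (h1.trans (Nat.cast_le.2 (Set.ncard_le_ncard ?_ ?_)))
  · rintro t ⟨h3, h3', m, h4, h5, h6⟩
    rw [hco] at h6
    exact ⟨h3, Al_mono hR h3', m, h4, h5.trans hM, ext_restrict (card_dil _ _) h6⟩
  · refine Set.Finite.subset (Box ε X).finite_toSet ?_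
    intro t ht
    rw [Finset.mem_coe]
    unfold Box
    rw [Fintype.mem_piFinset]
    intro j
    obtain ⟨h1, h2, _⟩ := ht.1 j
    rw [mem_Ioc]
    refine ⟨h1, ?_⟩
    have h3 : ((t j - X j : ℤ) : ℝ) ≤ ε * |(X j : ℝ)| := by
      push_cast
      linarith
    have h4 := Int.le_floor.2 h3
    omega

end Pool.Agent.H92.AP
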