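import Pool.Agent.H92.AP.Def

/-!
# THEOREM AP: windows (intervals), union bound for a given set of points, choice of the coordinates one after the other
-/

set_option autoImplicit false

namespace Pool.Agent.H92.AP

open Finset

/-- `window` of H34/IR/Win.lean with an interval -/
theorem window' (ε η a₀ E K : ℝ) (hε : 0 < ε) (hηε : 4 * η ≤ ε) (ha : 0 < a₀) (hK : 0 < K) :
    ∃ X₀ : ℕ, ∀ X : ℤ, (X₀ : ℤ) ≤ |X| → ∃ A B : ℤ, ε * a₀ / (4 * K) * |(X : ℝ)| ≤ (B : ℝ) - A ∧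
      ∀ v ∈ Ioc A B, ∀ a e : ℝ, a₀ ≤ a → a ≤ (1 + η) * a₀ → |e| ≤ E →
        (X : ℝ) * a < K * v + e ∧ K * v + e ≤ ((X : ℝ) + ⌊ε * |(X : ℝ)|⌋) * a := by
  refine ⟨⌈4 * (a₀ + 2 * E + K) / (ε * a₀)⌉₊, fun X hX => ?_⟩
  have hX' : 4 * (a₀ + 2 * E + K) / (ε * a₀) ≤ |(X : ℝ)| := by
    refine (Nat.le_ceil _).trans ?_
    have h1 : ((⌈4 * (a₀ + 2 * E + K) / (ε * a₀)⌉₊ : ℤ) : ℝ) ≤ ((|X| : ℤ) : ℝ) := by exact_mod_cast hX
    rw [Int.cast_abs] at h1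
    exact_mod_cast h1
  have hεa : 0 < ε * a₀ := mul_pos hε ha
  have hX2 : 4 * (a₀ + 2 * E + K) ≤ |(X : ℝ)| * (ε * a₀) := (div_le_iff₀ hεa).1 hX'
  obtain ⟨Y, hY⟩ : ∃ Y : ℝ, Y = |(X : ℝ)| := ⟨_, rfl⟩
  obtain ⟨x, hx⟩ : ∃ x : ℝ, x = (X : ℝ) := ⟨_, rfl⟩
  have hxY : x ≤ Y ∧ -x ≤ Y ∧ 0 ≤ Y := by
    rw [hY, hx]
    exact ⟨le_abs_self _, neg_le_abs _, abs_nonneg _⟩
  obtain ⟨α, hα⟩ : ∃ α : ℝ, α = (x * a₀ + Y * η * a₀ + E) / K := ⟨_, rfl⟩
  obtain ⟨β, hβ⟩ : ∃ β : ℝ, β = (x * a₀ + Y * a₀ * (ε - η) - a₀ - E) / K := ⟨_, rfl⟩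
  have hαK : K * α = x * a₀ + Y * η * a₀ + E := by rw [hα]; field_simp
  have hβK : K * β = x * a₀ + Y * a₀ * (ε - η) - a₀ - E := by rw [hβ]; field_simp
  rw [← hY] at hX2
  rw [← hY, ← hx]
  have hYa : 0 ≤ Y * a₀ := mul_nonneg hxY.2.2 ha.le
  have hYη : Y * a₀ * (4 * η) ≤ Y * a₀ * ε := mul_le_mul_of_nonneg_left hηε hYa
  refine ⟨⌊α⌋, ⌊β⌋, ?_, ?_⟩
  · have h3 : β - 1 < (⌊β⌋ : ℝ) := Int.sub_one_lt_floor β
    have h4 : (⌊α⌋ : ℝ) ≤ α := Int.floor_le α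
    have h5 : ε * a₀ / (4 * K) * Y ≤ β - α - 1 := by
      rw [div_mul_eq_mul_div, div_le_iff₀ (by positivity)]
      nlinarith
    linarith
  · intro v hv a e ha1 ha2 he
    rw [mem_Ioc] at hv
    have hv1 : α < (v : ℝ) := Int.floor_lt.1 hv.1
    have hv2 : (v : ℝ) ≤ β := Int.le_floor.1 hv.2
    have he' := abs_le.1 he
    have k1 : K * α < K * v := mul_lt_mul_of_pos_left hv1 hK
    have k2 : K * v ≤ K * β := mul_le_mul_of_nonneg_left hv2 hK.le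
    have k3 : 0 ≤ a - a₀ := by linarith
    have k4 : a - a₀ ≤ η * a₀ := by linarith
    have k5 : x * (a - a₀) ≤ Y * (η * a₀) :=
      (mul_le_mul_of_nonneg_right hxY.1 k3).trans (mul_le_mul_of_nonneg_left k4 hxY.2.2)
    have k6 : -x * (a - a₀) ≤ Y * (η * a₀) :=
      (mul_le_mul_of_nonneg_right hxY.2.1 k3).trans (mul_le_mul_of_nonneg_left k4 hxY.2.2)
    have hf0 : (0 : ℝ) ≤ (⌊ε * Y⌋ : ℝ) := by
      have : 0 ≤ ⌊ε * Y⌋ := Int.floor_nonneg.2 (mul_nonneg hε.le hxY.2.2)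
      exact_mod_cast this
    have hf1 : ε * Y - 1 < (⌊ε * Y⌋ : ℝ) := Int.sub_one_lt_floor _
    have k7 : (⌊ε * Y⌋ : ℝ) * a₀ ≤ (⌊ε * Y⌋ : ℝ) * a := mul_le_mul_of_nonneg_left ha1 hf0
    have k8 : (ε * Y - 1) * a₀ ≤ (⌊ε * Y⌋ : ℝ) * a₀ := mul_le_mul_of_nonneg_right hf1.le ha.le
    constructor
    · nlinarith
    · nlinarith

/-- union bound -/
theorem ub' {ι : Type*} {k : ℕ} (V : Finset (Fin k → ℤ)) (I : Finset ι) (φ : ι → (Fin k → ℤ) → (Fin k → ℤ))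
    (Exc : Finset (Fin k → ℤ)) (hinj : ∀ i ∈ I, Function.Injective (φ i))
    (hlt : I.card * Exc.card < V.card) : ∃ v ∈ V, ∀ i ∈ I, φ i v ∉ Exc := by
  classical
  by_contra hcon
  push Not at hcon
  have h1 : V ⊆ I.biUnion fun i => V.filter fun v => φ i v ∈ Exc := by
    intro v hv
    obtain ⟨i, hi, h⟩ := hcon v hv
    exact mem_biUnion.2 ⟨i, hi, mem_filter.2 ⟨hv, h⟩⟩
  have h2 : V.card ≤ I.card * Exc.card := by
    refine (card_le_card h1).trans (card_biUnion_le_card_mul _ _ _ fun i hi => ?_)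
    refine card_le_card_of_injOn (φ i) (fun v hv => ?_) (hinj i hi).injOn
    exact (mem_filter.1 hv).2
  omega

private theorem seq_aux {k : ℕ} (f : Fin k → ℤ) (J : Fin k → Finset ℤ) (L : Fin k → ℝ) (hL : ∀ j, 0 ≤ L j)
    (P : Fin k → Fin k → ℤ → ℤ → Prop) (P0 : Fin k → ℤ → Prop)
    (h : ∀ (j : Fin k) (s : Finset (Fin k)), j ∉ s → (∀ i ∈ s, f i ≤ f j) → ∀ v : Fin k → ℤ, (∀ i ∈ s, v i ∈ J i) →
      ∃ S : Finset ℤ, S ⊆ J j ∧ L j ≤ S.card ∧ ∀ x ∈ S, P0 j x ∧ ∀ i ∈ s, P j i x (v i)) (s : Finset (Fin k)) :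
    ∃ V : Finset (Fin k → ℤ), ∏ j ∈ s, L j ≤ V.card ∧ ∀ v ∈ V, (∀ j, j ∉ s → v j = 0) ∧
      ∀ j ∈ s, v j ∈ J j ∧ P0 j (v j) ∧ ∀ i ∈ s, i ≠ j → P j i (v j) (v i) ∨ P i j (v i) (v j) := by
  classical
  refine Finset.induction_on_max_value f s ?_ ?_
  · refine ⟨{0}, by simp, ?_⟩
    intro v hv
    rw [mem_singleton] at hv
    subst hv
    exact ⟨fun j _ => rfl, fun j hj => absurd hj (notMem_empty j)⟩
  · intro a s ha hmax ih
    obtain ⟨V, hV1, hV2⟩ := ih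
    have h1 : ∀ v : Fin k → ℤ, ∃ S : Finset ℤ, v ∈ V → S ⊆ J a ∧ L a ≤ S.card ∧ ∀ x ∈ S, P0 a x ∧
        ∀ i ∈ s, P a i x (v i) := by
      intro v
      by_cases hv : v ∈ V
      · obtain ⟨S, hS⟩ := h a s ha hmax v (fun i hi => ((hV2 v hv).2 i hi).1)
        exact ⟨S, fun _ => hS⟩
      · exact ⟨∅, fun h => absurd h hv⟩
    choose S hS using h1
    obtain ⟨W, hW⟩ : ∃ W : Finset (Fin k → ℤ), W = V.biUnion fun v => (S v).image fun x => Function.update v a x :=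
      ⟨_, rfl⟩
    have hWc : W.card = ∑ v ∈ V, (S v).card := by
      rw [hW, card_biUnion]
      · refine sum_congr rfl fun v _ => ?_
        rw [card_image_of_injective]
        intro x y hxy
        have := congrFun hxy a
        simpa using this
      · intro v hv v' hv' hne
        rw [Function.onFun, disjoint_left]
        intro w hw hw'
        obtain ⟨x, -, rfl⟩ := mem_image.1 hw
        obtain ⟨x', -, hxx⟩ := mem_image.1 hw'
        apply hne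
        funext j
        by_cases hj : j = a
        · rw [hj, (hV2 v hv).1 a ha, (hV2 v' hv').1 a ha]
        · have := congrFun hxx j
          rw [Function.update_of_ne hj, Function.update_of_ne hj] at this
          exact this.symm
    refine ⟨W, ?_, ?_⟩
    · rw [prod_insert ha, hWc]
      push_cast
      calc L a * ∏ j ∈ s, L j ≤ L a * V.card := mul_le_mul_of_nonneg_left hV1 (hL a)
        _ = ∑ _v ∈ V, L a := by rw [sum_const, nsmul_eq_mul, mul_comm]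
        _ ≤ ∑ v ∈ V, ((S v).card : ℝ) := sum_le_sum fun v hv => (hS v hv).2.1
    · intro w hw
      rw [hW, mem_biUnion] at hw
      obtain ⟨v, hv, hw⟩ := hw
      obtain ⟨x, hx, rfl⟩ := mem_image.1 hw
      obtain ⟨hS1, hS2, hS3⟩ := hS v hv
      obtain ⟨hx0, hx1⟩ := hS3 x hx
      obtain ⟨hv1, hv2⟩ := hV2 v hv
      have hne : ∀ i ∈ s, i ≠ a := fun i hi h => ha (h ▸ hi)
      refine ⟨fun j hj => ?_, fun j hj => ?_⟩
      · rw [mem_insert, not_or] at hj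
        rw [Function.update_of_ne hj.1]
        exact hv1 j hj.2
      · rcases mem_insert.1 hj with rfl | hjs
        · rw [Function.update_self]
          refine ⟨hS1 hx, hx0, fun i hi hij => ?_⟩
          rw [Function.update_of_ne hij]
          left
          exact hx1 i ((mem_insert.1 hi).resolve_left hij)
        · rw [Function.update_of_ne (hne j hjs)]
          obtain ⟨e1, e2, e3⟩ := hv2 j hjs
          refine ⟨e1, e2, fun i hi hij => ?_⟩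
          rcases mem_insert.1 hi with rfl | hi
          · rw [Function.update_self]
            right
            exact hx1 j hjs
          · rw [Function.update_of_ne (hne i hi)]
            exact e3 i hi hij

/-- many points all whose coordinates and pairs of coordinates are good -/
theorem seqV {k : ℕ} (f : Fin k → ℤ) (J : Fin k → Finset ℤ) (L : Fin k → ℝ) (hL : ∀ j, 0 ≤ L j)
    (P : Fin k → Fin k → ℤ → ℤ → Prop) (P0 : Fin k → ℤ → Prop)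
    (h : ∀ (j : Fin k) (s : Finset (Fin k)), j ∉ s → (∀ i ∈ s, f i ≤ f j) → ∀ v : Fin k → ℤ, (∀ i ∈ s, v i ∈ J i) →
      ∃ S : Finset ℤ, S ⊆ J j ∧ L j ≤ S.card ∧ ∀ x ∈ S, P0 j x ∧ ∀ i ∈ s, P j i x (v i)) :
    ∃ V : Finset (Fin k → ℤ), ∏ j, L j ≤ V.card ∧ ∀ v ∈ V,
      ∀ j, v j ∈ J j ∧ P0 j (v j) ∧ ∀ i, i ≠ j → P j i (v j) (v i) ∨ P i j (v i) (v j) := by
  obtain ⟨V, h1, h2⟩ := seq_aux f J L hL P P0 h univ
  refine ⟨V, h1, fun v hv j => ?_⟩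
  obtain ⟨e1, e2, e3⟩ := (h2 v hv).2 j (mem_univ j)
  exact ⟨e1, e2, fun i hij => e3 i (mem_univ i) hij⟩

end Pool.Agent.H92.AP
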