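import Pool.Agent.H92.AP.Alm
import Pool.Agent.H92.AP.Seq
import Pool.Agent.H34.IR.Place

/-!
# THEOREM AP: the choice of the translations of the children number `≥ 2`, with almost prime ratios

As `place` of H34/IR/Place.lean, but the parameters `v j` are chosen one after the other, in the order of increasing `|X j|`, with
`alm`: all the `t j`, `t j - 1` and `t j - t i` are almost prime (they are linear forms in the last parameter).
-/

set_option autoImplicit false

namespace Pool.Agent.H92.AP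

open Finset Pool.Agent.H34.IR

theorem place' {ι : Type*} {k : ℕ} (Q : ℕ) (hQ : 0 < Q) (ε : ℝ) (hε : 0 < ε) (hε1 : ε < 1)
    (B : ℤ → (Fin k → ℤ) → Prop) (hL : LrgR ε Q B) (M₁ : ℤ) (I : Finset ι) (a x : ι → ℤ) (a₀ : ℤ) (ha₀ : 0 < a₀)
    (ha : ∀ p ∈ I, a₀ ≤ a p ∧ (a p : ℝ) ≤ (1 + ε / 4) * a₀)
    (hcop : ∀ p ∈ I, ∀ q ∈ I, p ≠ q → IsCoprime (a p) (a q)) (haQ : ∀ p ∈ I, (Q : ℤ) ∣ a p - 1)
    (hxQ : ∀ p ∈ I, (Q : ℤ) ∣ x p) (G : Finset ℤ) :
    ∃ β : Fin k → ℤ,
      (∀ p ∈ I, ∀ γ : Fin k → ℤ, (∀ j, γ j ∈ G) → ∃ t : Fin k → ℤ,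
        (∀ j, β j + (∏ q ∈ I, a q) * Q * γ j = x p + t j * a p) ∧ B M₁ t) ∧
      (∀ j, (∀ p ∈ I, ∀ g ∈ G, x p + a p < β j + (∏ q ∈ I, a q) * Q * g) ∨
        ∀ p ∈ I, ∀ g ∈ G, β j + (∏ q ∈ I, a q) * Q * g < x p) ∧
      ∀ j j', j ≠ j' → (∀ g ∈ G, ∀ g' ∈ G,
          β j + (∏ q ∈ I, a q) * Q * g < β j' + (∏ q ∈ I, a q) * Q * g') ∨
        ∀ g ∈ G, ∀ g' ∈ G, β j' + (∏ q ∈ I, a q) * Q * g' < β j + (∏ q ∈ I, a q) * Q * g := by
  classical
  have hapos : ∀ p ∈ I, 0 < a p := fun p hp => lt_of_lt_of_le ha₀ (ha p hp).1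
  have hQ' : (0 : ℤ) < Q := by exact_mod_cast hQ
  have hacQ : ∀ p ∈ I, IsCoprime (a p) (Q : ℤ) := by
    intro p hp
    obtain ⟨c, hc⟩ := haQ p hp
    exact ⟨1, -c, by linear_combination hc⟩
  obtain ⟨M, hM⟩ : ∃ M : ℤ, M = ∏ q ∈ I, a q := ⟨_, rfl⟩
  have hMpos : 0 < M := by
    rw [hM]
    exact Finset.prod_pos hapos
  have hMdvd : ∀ p ∈ I, a p ∣ M := fun p hp => hM ▸ Finset.dvd_prod_of_mem a hp
  obtain ⟨P, hP⟩ : ∃ P : ℤ, P = M * Q := ⟨_, rfl⟩
  have hPpos : 0 < P := by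
    rw [hP]
    positivity
  have hPdvd : ∀ p ∈ I, a p ∣ P := fun p hp => hP ▸ Dvd.dvd.mul_right (hMdvd p hp) _
  have hQP : (Q : ℤ) ∣ P := hP ▸ Dvd.intro_left _ rfl
  rw [← hM, ← hP]
  obtain ⟨Δ, hΔ0, hΔ⟩ := bound_of G
  obtain ⟨D, hD⟩ : ∃ D : ℤ, D = 2 * Δ + 1 := ⟨_, rfl⟩
  have hDpos : 0 < D := by omega
  obtain ⟨Ex, hEx0, hEx⟩ := bound_of (I.image x)
  have hEx' : ∀ p ∈ I, |x p| ≤ Ex := fun p hp => hEx _ (Finset.mem_image_of_mem x hp)
  obtain ⟨K, hK⟩ : ∃ K : ℤ, K = P * D * (k + 1) := ⟨_, rfl⟩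
  have hKpos : 0 < K := by
    rw [hK]
    positivity
  obtain ⟨E, hE⟩ : ∃ E : ℤ, E = P + P * D * k + P * Δ + Ex := ⟨_, rfl⟩
  have hE0 : 0 ≤ E := by
    rw [hE]
    positivity
  obtain ⟨X₁, hX₁⟩ := window' ε (ε / 4) a₀ E K hε (by linarith) (by exact_mod_cast ha₀)
    (by exact_mod_cast hKpos)
  obtain ⟨ρ, hρ⟩ : ∃ ρ : ℝ, ρ = ε * a₀ / (4 * K) := ⟨_, rfl⟩
  have hρpos : 0 < ρ := by
    rw [hρ]
    have h1 : (0 : ℝ) < a₀ := by exact_mod_cast ha₀
    have h2 : (0 : ℝ) < K := by exact_mod_cast hKpos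
    positivity
  rw [← hρ] at hX₁
  -- the leading coefficients
  have hex : ∀ p, ∃ ep : ℤ, p ∈ I → ep * a p = K := by
    intro p
    by_cases hp : p ∈ I
    · obtain ⟨c, hc⟩ := hPdvd p hp
      exact ⟨c * D * (k + 1), fun _ => by rw [hK, hc]; ring⟩
    · exact ⟨0, fun h => absurd h hp⟩
  choose ec hec using hex
  have hec0 : ∀ p ∈ I, 0 < ec p ∧ ec p ≤ K := by
    intro p hp
    have h1 := hec p hp
    have h2 := hapos p hp
    have h3 : 0 < ec p := by
      by_contra hcon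
      push Not at hcon
      have := mul_nonpos_of_nonpos_of_nonneg hcon h2.le
      omega
    refine ⟨h3, ?_⟩
    calc ec p = ec p * 1 := (mul_one _).symm
      _ ≤ ec p * a p := mul_le_mul_of_nonneg_left (by omega) h3.le
      _ = K := h1
  obtain ⟨R, C, δ₁, Y₀, hδ₁, hY₀, halm⟩ := alm (I.card * G.card * (2 + k * G.card)) K ρ hρpos
  obtain ⟨II, hII⟩ : ∃ II : Finset (ι × (Fin k → ℤ)), II = I ×ˢ Fintype.piFinset fun _ : Fin k => G := ⟨_, rfl⟩
  obtain ⟨δ, hδ⟩ : ∃ δ : ℝ, δ = δ₁ ^ k / (2 * (II.card + 1)) := ⟨_, rfl⟩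
  have hδpos : 0 < δ := by
    rw [hδ]
    positivity
  obtain ⟨Y₁, hY₁⟩ : ∃ Y₁ : ℕ, Y₀ ≤ Y₁ := ⟨⌈Y₀⌉₊, Nat.le_ceil _⟩
  obtain ⟨X, c, hX, hfew⟩ := hL M₁ (X₁ + Y₁ + 4) R C δ hδpos
  have hX1 : ∀ j, (X₁ : ℤ) ≤ |X j| := fun j => by
    have := hX j
    push_cast at this
    omega
  have hX4 : ∀ j, 4 ≤ |X j| := fun j => by
    have := hX j
    push_cast at this
    omega
  have hXY : ∀ j, Y₀ ≤ |(X j : ℝ)| := fun j => by
    have h1 := hX j
    push_cast at h1
    have h2 : (Y₁ : ℤ) ≤ |X j| := by omega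
    have h3 : (Y₁ : ℝ) ≤ |(X j : ℝ)| := by exact_mod_cast h2
    linarith
  have hX4r : ∀ j, (4 : ℝ) ≤ |(X j : ℝ)| := fun j => by exact_mod_cast hX4 j
  have hl := fun j => crt I a x hapos hcop Q hQ' hacQ (c j)
  rw [← hM] at hl
  choose l hl0 hl1 hla hlQ using hl
  rw [← hP] at hl1
  choose Aw Bw hJ1 hJ2 using fun j => hX₁ (X j) (hX1 j)
  -- the exceptional set
  obtain ⟨Exc, hExc⟩ : ∃ Exc : Finset (Fin k → ℤ),
    Exc = (Box ε X).filter fun t => (∀ j, t j ≡ c j [ZMOD Q]) ∧ Al R t ∧ ¬ B M₁ t := ⟨_, rfl⟩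
  have hfew' : (Exc.card : ℝ) ≤ δ * wt C X := by
    refine hfew Exc fun t ht => ?_
    rw [hExc, mem_filter] at ht
    exact ht
  have hdvd : ∀ p ∈ I, ∀ j, ∀ w g : ℤ, a p ∣ l j + P * D * w + P * g - x p := by
    intro p hp j w g
    have h1 := hla j p hp
    have h2 : a p ∣ P * (D * w + g) := Dvd.dvd.mul_right (hPdvd p hp) _
    have h3 := dvd_add h1 h2
    have e : l j - x p + P * (D * w + g) = l j + P * D * w + P * g - x p := by ring
    rwa [e] at h3
  -- the points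
  obtain ⟨tt, htt⟩ : ∃ tt : Fin k → ι → ℤ → ℤ → ℤ, tt = fun j p g v =>
    (l j + P * D * ((k + 1) * v + j) + P * g - x p) / a p := ⟨_, rfl⟩
  have htta : ∀ p ∈ I, ∀ j g v, tt j p g v * a p = l j + P * D * ((k + 1) * v + j) + P * g - x p := by
    intro p hp j g v
    rw [htt]
    exact Int.ediv_mul_cancel (hdvd p hp j _ _)
  have httl : ∀ p ∈ I, ∀ j g v, tt j p g v = ec p * v + tt j p g 0 := by
    intro p hp j g v
    have h1 := htta p hp j g v
    have h2 := htta p hp j g 0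
    have h3 := hec p hp
    have h4 : (tt j p g v - (ec p * v + tt j p g 0)) * a p = 0 := by
      have e1 : (tt j p g v - (ec p * v + tt j p g 0)) * a p = tt j p g v * a p - (ec p * a p) * v -
        tt j p g 0 * a p := by ring
      rw [e1, h1, h2, h3, hK]
      ring
    have h5 := (mul_eq_zero.1 h4).resolve_right (hapos p hp).ne'
    linarith
  -- inequalities
  have key0 : ∀ p ∈ I, ∀ j, ∀ g ∈ G, ∀ v ∈ Ioc (Aw j) (Bw j),
      X j * a p < l j + P * D * ((k + 1) * v + j) + P * g - x p ∧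
      l j + P * D * ((k + 1) * v + j) + P * g - x p ≤ (X j + ⌊ε * |(X j : ℝ)|⌋) * a p := by
    intro p hp j g hg v hv
    have h1 := hJ2 j v hv (a p) (l j + P * D * j + P * g - x p : ℤ)
      (by exact_mod_cast (ha p hp).1) (ha p hp).2 (by
        rw [← Int.cast_abs]
        have hj : (j : ℤ) ≤ k := by
          have := j.2
          omega
        have hj0 : (0 : ℤ) ≤ j := by positivity
        have h2 := abs_le.1 (hΔ g hg)
        have h3 := abs_le.1 (hEx' p hp)
        have h4 : |l j + P * D * j + P * g - x p| ≤ E := by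
          rw [abs_le, hE]
          have e1 : 0 ≤ P * D * (j : ℤ) := by positivity
          have e2 : P * D * (j : ℤ) ≤ P * D * k := by
            exact mul_le_mul_of_nonneg_left hj (by positivity)
          have e3 : P * g ≤ P * Δ := mul_le_mul_of_nonneg_left h2.2 hPpos.le
          have e4 : P * (-Δ) ≤ P * g := mul_le_mul_of_nonneg_left h2.1 hPpos.le
          have e5 := hl0 j
          have e6 := hl1 j
          constructor <;> nlinarith
        exact_mod_cast h4)
    have e : (K : ℝ) * (v : ℝ) + ((l j + P * D * j + P * g - x p : ℤ) : ℝ) =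
        ((l j + P * D * ((k + 1) * v + j) + P * g - x p : ℤ) : ℝ) := by
      rw [hK]
      push_cast
      ring
    rw [e] at h1
    exact ⟨by exact_mod_cast h1.1, by exact_mod_cast h1.2⟩
  have hbd : ∀ p ∈ I, ∀ j, ∀ g ∈ G, ∀ v ∈ Ioc (Aw j) (Bw j),
      X j < tt j p g v ∧ tt j p g v ≤ X j + ⌊ε * |(X j : ℝ)|⌋ := by
    intro p hp j g hg v hv
    have h2 := key0 p hp j g hg v hv
    rw [← htta p hp] at h2
    exact ⟨lt_of_mul_lt_mul_right h2.1 (hapos p hp).le, le_of_mul_le_mul_right h2.2 (hapos p hp)⟩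
  have hbd2 : ∀ p ∈ I, ∀ j, ∀ g ∈ G, ∀ v ∈ Ioc (Aw j) (Bw j), |((tt j p g v : ℤ) : ℝ)| ≤ 2 * |(X j : ℝ)| := by
    intro p hp j g hg v hv
    obtain ⟨h1, h2⟩ := hbd p hp j g hg v hv
    have h1' : (X j : ℝ) < tt j p g v := by exact_mod_cast h1
    have h2' : ((tt j p g v : ℤ) : ℝ) ≤ X j + (⌊ε * |(X j : ℝ)|⌋ : ℝ) := by exact_mod_cast h2
    have h3 : (⌊ε * |(X j : ℝ)|⌋ : ℝ) ≤ ε * |(X j : ℝ)| := Int.floor_le _
    have h4 : ε * |(X j : ℝ)| ≤ 1 * |(X j : ℝ)| := mul_le_mul_of_nonneg_right hε1.le (abs_nonneg _)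
    have h5 := le_abs_self (X j : ℝ)
    have h6 := neg_abs_le (X j : ℝ)
    rw [abs_le]
    constructor <;> linarith [abs_nonneg (X j : ℝ)]
  -- the choice of many points
  obtain ⟨L, hLd⟩ : ∃ L : Fin k → ℝ, L = fun j => δ₁ * (|(X j : ℝ)| / Real.log |(X j : ℝ)| ^ C) := ⟨_, rfl⟩
  have hlog : ∀ j, 0 < Real.log |(X j : ℝ)| := fun j => Real.log_pos (by linarith [hX4r j])
  obtain ⟨V, hV1, hV2⟩ := seqV (fun j => |X j|) (fun j => Ioc (Aw j) (Bw j)) L
    (fun j => by
      rw [hLd]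
      have := hlog j
      positivity)
    (fun j i u w => ∀ p ∈ I, ∀ g ∈ G, ∀ g' ∈ G, Apr R (tt j p g u - tt i p g' w))
    (fun j u => ∀ p ∈ I, ∀ g ∈ G, Apr R (tt j p g u) ∧ Apr R (tt j p g u - 1)) (by
      intro j s hjs hmax v hv
      obtain ⟨F1, hF1⟩ : ∃ F1 : Finset (ℤ × ℤ), F1 = (I ×ˢ G).image fun q => (ec q.1, tt j q.1 q.2 0) := ⟨_, rfl⟩
      obtain ⟨F2, hF2⟩ : ∃ F2 : Finset (ℤ × ℤ), F2 = (I ×ˢ G).image fun q => (ec q.1, tt j q.1 q.2 0 - 1) := ⟨_, rfl⟩
      obtain ⟨F3, hF3⟩ : ∃ F3 : Finset (ℤ × ℤ), F3 = ((I ×ˢ G) ×ˢ (s ×ˢ G)).image fun q =>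
        (ec q.1.1, tt j q.1.1 q.1.2 0 - tt q.2.1 q.1.1 q.2.2 (v q.2.1)) := ⟨_, rfl⟩
      have hcard : (F1 ∪ F2 ∪ F3).card ≤ I.card * G.card * (2 + k * G.card) := by
        have e1 : F1.card ≤ I.card * G.card := by
          rw [hF1]
          refine card_image_le.trans ?_
          rw [card_product]
        have e2 : F2.card ≤ I.card * G.card := by
          rw [hF2]
          refine card_image_le.trans ?_
          rw [card_product]
        have e3 : F3.card ≤ (I.card * G.card) * (k * G.card) := by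
          rw [hF3]
          refine card_image_le.trans ?_
          rw [card_product, card_product, card_product]
          refine Nat.mul_le_mul_left _ (Nat.mul_le_mul_right _ ?_)
          have := card_le_univ s
          rwa [Fintype.card_fin] at this
        have e4 := card_union_le (F1 ∪ F2) F3
        have e5 := card_union_le F1 F2
        have e6 : I.card * G.card * (2 + k * G.card) = I.card * G.card + I.card * G.card +
          (I.card * G.card) * (k * G.card) := by ring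
        omega
      have hlead : ∀ f ∈ F1 ∪ F2 ∪ F3, f.1 ≠ 0 ∧ |f.1| ≤ K := by
        intro f hf
        have h1 : ∃ p ∈ I, f.1 = ec p := by
          rw [mem_union, mem_union] at hf
          rcases hf with (hf | hf) | hf
          · rw [hF1, mem_image] at hf
            obtain ⟨q, hq, rfl⟩ := hf
            exact ⟨q.1, (mem_product.1 hq).1, rfl⟩
          · rw [hF2, mem_image] at hf
            obtain ⟨q, hq, rfl⟩ := hf
            exact ⟨q.1, (mem_product.1 hq).1, rfl⟩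
          · rw [hF3, mem_image] at hf
            obtain ⟨q, hq, rfl⟩ := hf
            exact ⟨q.1.1, (mem_product.1 (mem_product.1 hq).1).1, rfl⟩
        obtain ⟨p, hp, h2⟩ := h1
        have h3 := hec0 p hp
        rw [h2, abs_of_pos h3.1]
        exact ⟨h3.1.ne', h3.2⟩
      obtain ⟨S, hS1, hS2, hS3⟩ := halm |(X j : ℝ)| (hXY j) (F1 ∪ F2 ∪ F3) hcard hlead (Aw j) (Bw j) (hJ1 j)
      have hsz : ∀ z : ℝ, z ≤ 4 * |(X j : ℝ)| → z ≤ |(X j : ℝ)| ^ 2 := by
        intro z hz
        nlinarith [hX4r j]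
      refine ⟨S, hS1, by rw [hLd]; exact hS2, fun u hu => ⟨fun p hp g hg => ⟨?_, ?_⟩, fun i hi p hp g hg g' hg' => ?_⟩⟩
      · have h1 : (ec p, tt j p g 0) ∈ F1 ∪ F2 ∪ F3 := by
          rw [mem_union, mem_union]
          left
          left
          rw [hF1]
          exact mem_image_of_mem (fun q : ι × ℤ => (ec q.1, tt j q.1 q.2 0))
            (mem_product.2 ⟨hp, hg⟩ : (p, g) ∈ I ×ˢ G)
        obtain ⟨h2, h3⟩ := hS3 u hu _ h1
        simp only at h2 h3
        rw [← httl p hp] at h2 h3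
        refine ⟨h2, h3 (hsz _ ?_)⟩
        linarith [hbd2 p hp j g hg u (hS1 hu), abs_nonneg (X j : ℝ)]
      · have h1 : (ec p, tt j p g 0 - 1) ∈ F1 ∪ F2 ∪ F3 := by
          rw [mem_union, mem_union]
          left
          right
          rw [hF2]
          exact mem_image_of_mem (fun q : ι × ℤ => (ec q.1, tt j q.1 q.2 0 - 1))
            (mem_product.2 ⟨hp, hg⟩ : (p, g) ∈ I ×ˢ G)
        obtain ⟨h2, h3⟩ := hS3 u hu _ h1
        simp only at h2 h3
        have e1 : ec p * u + (tt j p g 0 - 1) = tt j p g u - 1 := by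
          rw [httl p hp j g u]
          ring
        rw [e1] at h2 h3
        refine ⟨h2, h3 (hsz _ ?_)⟩
        have e2 := hbd2 p hp j g hg u (hS1 hu)
        push_cast
        have e3 := abs_sub ((tt j p g u : ℤ) : ℝ) 1
        rw [abs_one] at e3
        linarith [hX4r j]
      · have h1 : (ec p, tt j p g 0 - tt i p g' (v i)) ∈ F1 ∪ F2 ∪ F3 := by
          rw [mem_union]
          right
          rw [hF3]
          exact mem_image_of_mem (fun q : (ι × ℤ) × (Fin k × ℤ) =>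
            (ec q.1.1, tt j q.1.1 q.1.2 0 - tt q.2.1 q.1.1 q.2.2 (v q.2.1)))
            (mem_product.2 ⟨mem_product.2 ⟨hp, hg⟩, mem_product.2 ⟨hi, hg'⟩⟩ :
              ((p, g), (i, g')) ∈ (I ×ˢ G) ×ˢ (s ×ˢ G))
        obtain ⟨h2, h3⟩ := hS3 u hu _ h1
        simp only at h2 h3
        have e1 : ec p * u + (tt j p g 0 - tt i p g' (v i)) = tt j p g u - tt i p g' (v i) := by
          rw [httl p hp j g u]
          ring
        rw [e1] at h2 h3
        refine ⟨h2, h3 (hsz _ ?_)⟩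
        have e2 := hbd2 p hp j g hg u (hS1 hu)
        have e3 := hbd2 p hp i g' hg' (v i) (hv i hi)
        have e4 := abs_sub ((tt j p g u : ℤ) : ℝ) ((tt i p g' (v i) : ℤ) : ℝ)
        have e5 : |(X i : ℝ)| ≤ |(X j : ℝ)| := by exact_mod_cast hmax i hi
        push_cast
        linarith)
  have hlt : II.card * Exc.card < V.card := by
    have h2 : (∏ j, L j) = δ₁ ^ k * wt C X := by
      rw [hLd, Finset.prod_mul_distrib, Finset.prod_const, Finset.card_univ, Fintype.card_fin]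
      rfl
    have h3 : 0 < wt C X := by
      unfold wt
      refine Finset.prod_pos fun j _ => ?_
      have h4 := hX4r j
      have h5 := hlog j
      exact div_pos (by linarith) (by positivity)
    have h4 : ((II.card * Exc.card : ℕ) : ℝ) < δ₁ ^ k * wt C X := by
      push_cast
      calc (II.card : ℝ) * Exc.card ≤ II.card * (δ * wt C X) :=
            mul_le_mul_of_nonneg_left hfew' (by positivity)
        _ = (II.card * δ) * wt C X := by ring
        _ < δ₁ ^ k * wt C X := by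
            refine mul_lt_mul_of_pos_right ?_ h3
            rw [hδ, ← mul_div_assoc, div_lt_iff₀ (by positivity)]
            have h5 : 0 < δ₁ ^ k := by positivity
            nlinarith [h5, (Nat.cast_nonneg II.card : (0 : ℝ) ≤ II.card)]
    have h5 := lt_of_lt_of_le h4 (h2 ▸ hV1)
    exact_mod_cast h5
  obtain ⟨v, hv, hvE⟩ := ub' V II
    (fun q v j => tt j q.1 (q.2 j) (v j)) Exc
    (by
      intro q hq v v' hvv
      rw [hII, mem_product] at hq
      funext j
      have h1 := congrFun hvv j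
      simp only at h1
      rw [httl q.1 hq.1 j (q.2 j) (v j), httl q.1 hq.1 j (q.2 j) (v' j)] at h1
      have h2 : ec q.1 * v j = ec q.1 * v' j := by linarith
      exact mul_left_cancel₀ (hec0 q.1 hq.1).1.ne' h2) hlt
  have hvJ : ∀ j, v j ∈ Ioc (Aw j) (Bw j) := fun j => (hV2 v hv j).1
  have key : ∀ p ∈ I, ∀ j, ∀ g ∈ G,
      X j * a p < l j + P * D * ((k + 1) * v j + j) + P * g - x p ∧
      l j + P * D * ((k + 1) * v j + j) + P * g - x p ≤ (X j + ⌊ε * |(X j : ℝ)|⌋) * a p :=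
    fun p hp j g hg => key0 p hp j g hg (v j) (hvJ j)
  refine ⟨fun j => l j + P * D * ((k + 1) * v j + j), ?_, ?_, ?_⟩
  · intro p hp γ hγ
    obtain ⟨t, ht⟩ : ∃ t : Fin k → ℤ, t = fun j => tt j p (γ j) (v j) := ⟨_, rfl⟩
    have ha1 := hapos p hp
    have hta : ∀ j, t j * a p = l j + P * D * ((k + 1) * v j + j) + P * γ j - x p := by
      intro j
      rw [ht]
      exact htta p hp j _ _
    refine ⟨t, fun j => ?_, ?_⟩
    · rw [hta j]
      ring
    · have h1 : t ∉ Exc := by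
        rw [ht]
        refine hvE (p, γ) ?_
        rw [hII, mem_product]
        exact ⟨hp, Fintype.mem_piFinset.2 hγ⟩
      by_contra hB
      refine h1 ?_
      rw [hExc, mem_filter]
      refine ⟨?_, fun j => ?_, ?_, hB⟩
      · unfold Box
        rw [Fintype.mem_piFinset]
        intro j
        rw [mem_Ioc, ht]
        exact hbd p hp j (γ j) (hγ j) (v j) (hvJ j)
      · have h2 := hta j
        obtain ⟨c1, hc1⟩ := haQ p hp
        obtain ⟨c2, hc2⟩ := hxQ p hp
        obtain ⟨c3, hc3⟩ := hlQ j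
        obtain ⟨c4, hc4⟩ := hQP
        refine (Int.modEq_iff_dvd.2 ?_).symm
        refine ⟨c3 + c4 * (D * ((k + 1) * v j + j) + γ j) - c2 - c1 * t j, ?_⟩
        have e1 : t j = l j + P * (D * ((k + 1) * v j + j) + γ j) - x p - (a p - 1) * t j := by
          linear_combination h2
        rw [hc1, hc2, hc4] at e1
        linear_combination e1 + hc3
      · intro j
        obtain ⟨-, e1, e2⟩ := hV2 v hv j
        rw [ht]
        refine ⟨(e1 p hp (γ j) (hγ j)).1, (e1 p hp (γ j) (hγ j)).2, fun i hij => ?_⟩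
        rcases e2 i hij with h | h
        · exact h p hp (γ j) (hγ j) (γ i) (hγ i)
        · have h3 := Apr_neg (h p hp (γ i) (hγ i) (γ j) (hγ j))
          rwa [neg_sub] at h3
  · intro j
    rcases lt_or_gt_of_ne (show X j ≠ 0 from fun h => by
      have := hX4 j
      rw [h] at this
      simp at this) with hneg | hpos
    · right
      intro p hp g hg
      have h1 := (key p hp j g hg).2
      have h2 : X j + ⌊ε * |(X j : ℝ)|⌋ < 0 := by
        have h3 : (⌊ε * |(X j : ℝ)|⌋ : ℝ) ≤ ε * |(X j : ℝ)| := Int.floor_le _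
        have h4 : (X j : ℝ) < 0 := by exact_mod_cast hneg
        rw [abs_of_neg h4] at h3
        have h5 : ((X j + ⌊ε * |(X j : ℝ)|⌋ : ℤ) : ℝ) < 0 := by
          push_cast
          rw [abs_of_neg h4]
          nlinarith
        exact_mod_cast h5
      have h3 := mul_neg_of_neg_of_pos h2 (hapos p hp)
      linarith
    · left
      intro p hp g hg
      have h1 := (key p hp j g hg).1
      have h2 : a p ≤ X j * a p := le_mul_of_one_le_left (hapos p hp).le hpos
      linarith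
  · intro j j' hjj
    have main : ∀ j j' : Fin k, (k + 1) * v j + (j : ℤ) < (k + 1) * v j' + (j' : ℤ) → ∀ g ∈ G, ∀ g' ∈ G,
        l j + P * D * ((k + 1) * v j + j) + P * g < l j' + P * D * ((k + 1) * v j' + j') + P * g' := by
      intro j j' hlt g hg g' hg'
      have h1 := abs_le.1 (hΔ g hg)
      have h2 := abs_le.1 (hΔ g' hg')
      have h3 := hl1 j
      have h4 := hl0 j'
      have h5 : 1 ≤ D * (((k + 1) * v j' + (j' : ℤ)) - ((k + 1) * v j + (j : ℤ))) + (g' - g) := by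
        have h6 : D ≤ D * (((k + 1) * v j' + (j' : ℤ)) - ((k + 1) * v j + (j : ℤ))) :=
          le_mul_of_one_le_right hDpos.le (by omega)
        omega
      have h6 : P * 1 ≤ P * (D * (((k + 1) * v j' + (j' : ℤ)) - ((k + 1) * v j + (j : ℤ))) + (g' - g)) :=
        mul_le_mul_of_nonneg_left h5 hPpos.le
      nlinarith
    have hne : (k + 1) * v j + (j : ℤ) ≠ (k + 1) * v j' + (j' : ℤ) := by
      intro h
      apply hjj
      have h1 : ((k : ℤ) + 1) * (v j - v j') = (j' : ℤ) - j := by linear_combination h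
      have h2 := j.2
      have h3 := j'.2
      have h4 : v j = v j' := by
        by_contra hvv
        rcases lt_or_gt_of_ne hvv with h5 | h5
        · have h6 : v j - v j' ≤ -1 := by omega
          nlinarith
        · have h6 : 1 ≤ v j - v j' := by omega
          nlinarith
      rw [h4, sub_self, mul_zero] at h1
      apply Fin.ext
      omega
    rcases lt_or_gt_of_ne hne with h | h
    · left
      exact main j j' h
    · right
      intro g hg g' hg'
      exact main j' j h g' hg' g hg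

end Pool.Agent.H92.AP
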