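import Pool.Agent.H92.AP.Def

/-!
# THEOREM AP: small primes and the number of prime factors

`small`: for finitely many forms `f.1 v + f.2` there is `v₀` such that no prime power `q ^ e`, `q ≤ w`, divides a value (for
`2 ^ e > T * (number of pairs)`).
`om`: a positive integer `n ≤ z ^ s` which is not divisible by any `q ^ e`, `2 ≤ q ≤ w`, and without prime factors in `(w, z]` has at most
`w * e + s` prime factors.
-/

set_option autoImplicit false

namespace Pool.Agent.H92.AP

open Finset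

theorem small (F : Finset (ℤ × ℤ)) (c : ℤ) (hc : ∀ f ∈ F, f.1 ≠ 0 ∧ |f.1| ≤ c) (w e : ℕ)
    (he : c * (F.card * (w + 1) + 1) < 2 ^ e) :
    ∃ v : ℤ, ∀ f ∈ F, ∀ q : ℕ, q.Prime → q ≤ w → ¬ (q : ℤ) ^ e ∣ f.1 * v + f.2 := by
  classical
  by_contra hcon
  push Not at hcon
  obtain ⟨T, hT⟩ : ∃ T : ℕ, T = F.card * (w + 1) + 1 := ⟨_, rfl⟩
  have h1 : ∀ v : ℕ, ∃ x : (ℤ × ℤ) × ℕ, x.1 ∈ F ∧ x.2.Prime ∧ x.2 ≤ w ∧ (x.2 : ℤ) ^ e ∣ x.1.1 * v + x.1.2 := by
    intro v
    obtain ⟨f, hf, q, hq, hqw, hd⟩ := hcon v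
    exact ⟨(f, q), hf, hq, hqw, hd⟩
  choose φ h2 h3 h4 h5 using h1
  obtain ⟨v, hv, v', hv', hne, heq⟩ := exists_ne_map_eq_of_card_lt_of_maps_to (s := range T)
    (t := F ×ˢ range (w + 1)) (f := φ) (by
      rw [card_product, card_range, card_range, hT]
      omega) (fun v _ => by
      rw [mem_coe, mem_product, mem_range]
      exact ⟨h2 v, Nat.lt_succ_of_le (h4 v)⟩)
  have h6 := h5 v
  have h7 := h5 v'
  rw [← heq] at h7
  obtain ⟨f, hf⟩ : ∃ f, f = (φ v).1 := ⟨_, rfl⟩
  obtain ⟨q, hq⟩ : ∃ q, q = (φ v).2 := ⟨_, rfl⟩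
  have hfF := h2 v
  have hqp := h3 v
  rw [← hf] at hfF h6 h7
  rw [← hq] at hqp h6 h7
  have h8 : (q : ℤ) ^ e ∣ f.1 * ((v : ℤ) - v') := by
    have := dvd_sub h6 h7
    have e1 : f.1 * (v : ℤ) + f.2 - (f.1 * (v' : ℤ) + f.2) = f.1 * ((v : ℤ) - v') := by ring
    rwa [e1] at this
  have h9 : f.1 * ((v : ℤ) - v') ≠ 0 := by
    refine mul_ne_zero (hc f hfF).1 ?_
    intro h
    apply hne
    have : (v : ℤ) = v' := by linarith
    exact_mod_cast this
  have h10 := Int.le_of_dvd (abs_pos.2 h9) ((dvd_abs _ _).2 h8)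
  have h11 : |f.1 * ((v : ℤ) - v')| ≤ c * T := by
    rw [abs_mul]
    have a1 := (hc f hfF).2
    have a2 : |(v : ℤ) - v'| ≤ T := by
      rw [mem_range] at hv hv'
      rw [abs_le]
      constructor <;> omega
    exact mul_le_mul a1 a2 (abs_nonneg _) ((abs_nonneg _).trans a1)
  have h12 : (2 : ℤ) ^ e ≤ (q : ℤ) ^ e := by
    refine pow_le_pow_left₀ (by norm_num) ?_ e
    exact_mod_cast hqp.two_le
  rw [hT] at h11
  push_cast at h11
  linarith

theorem om (n : ℕ) (hn : n ≠ 0) (w e s : ℕ) (z : ℝ) (hz : 1 < z)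
    (h1 : ∀ q : ℕ, q.Prime → q ≤ w → ¬ q ^ e ∣ n) (h2 : ∀ q : ℕ, q.Prime → w < q → (q : ℝ) ≤ z → ¬ q ∣ n)
    (h3 : (n : ℝ) ≤ z ^ s) : n.primeFactorsList.length ≤ (w + 1) * e + s := by
  classical
  have h4 : n.primeFactorsList.length = ∑ p ∈ n.primeFactors, n.factorization p := by
    have h5 : (n.primeFactorsList.length) = ∑ p ∈ n.primeFactorsList.toFinset, n.primeFactorsList.count p := by
      rw [List.sum_toFinset_count_eq_length]
    rw [h5]
    refine sum_congr rfl fun p _ => ?_
    rw [Nat.primeFactorsList_count_eq]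
  rw [h4, ← sum_filter_add_sum_filter_not n.primeFactors (fun p => p ≤ w)]
  refine add_le_add ?_ ?_
  · calc ∑ p ∈ n.primeFactors.filter (fun p => p ≤ w), n.factorization p
        ≤ ∑ p ∈ n.primeFactors.filter (fun p => p ≤ w), e := by
          refine sum_le_sum fun p hp => ?_
          rw [mem_filter, Nat.mem_primeFactors] at hp
          by_contra hcon
          push Not at hcon
          refine h1 p hp.1.1 hp.2 ?_
          exact (pow_dvd_pow p hcon.le).trans (Nat.ordProj_dvd n p)
      _ ≤ (w + 1) * e := by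
          rw [sum_const, smul_eq_mul]
          refine Nat.mul_le_mul_right _ ?_
          have : n.primeFactors.filter (fun p => p ≤ w) ⊆ range (w + 1) := by
            intro p hp
            rw [mem_filter] at hp
            rw [mem_range]
            omega
          simpa using card_le_card this
  · obtain ⟨u, hu⟩ : ∃ u, u = ∑ p ∈ n.primeFactors.filter (fun p => ¬ p ≤ w), n.factorization p := ⟨_, rfl⟩
    rw [← hu]
    by_contra hcon
    push Not at hcon
    have h5 : z ^ u ≤ (n : ℝ) := by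
      have h6 : (n : ℝ) = ∏ p ∈ n.primeFactors, (p : ℝ) ^ n.factorization p := by
        have h7 : ∏ p ∈ n.primeFactors, p ^ n.factorization p = n := Nat.prod_factorization_pow_eq_self hn
        conv_lhs => rw [← h7]
        push_cast
        rfl
      rw [h6, ← prod_filter_mul_prod_filter_not n.primeFactors (fun p => p ≤ w), hu, ← prod_pow_eq_pow_sum]
      have h8 : ∏ p ∈ n.primeFactors.filter (fun p => ¬ p ≤ w), z ^ n.factorization p ≤
          ∏ p ∈ n.primeFactors.filter (fun p => ¬ p ≤ w), (p : ℝ) ^ n.factorization p := by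
        refine prod_le_prod (fun p _ => by positivity) fun p hp => ?_
        rw [mem_filter, Nat.mem_primeFactors] at hp
        refine pow_le_pow_left₀ (by linarith) ?_ _
        by_contra h9
        push Not at h9
        exact h2 p hp.1.1 (by omega) h9.le hp.1.2.1
      refine h8.trans ?_
      refine le_mul_of_one_le_left (prod_nonneg fun p _ => by positivity) ?_
      have h10 : ∏ _p ∈ n.primeFactors.filter (fun p => p ≤ w), (1 : ℝ) ≤
          ∏ p ∈ n.primeFactors.filter (fun p => p ≤ w), (p : ℝ) ^ n.factorization p := by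
        refine prod_le_prod (fun p _ => zero_le_one) fun p hp => ?_
        rw [mem_filter, Nat.mem_primeFactors] at hp
        refine one_le_pow₀ ?_
        exact_mod_cast hp.1.1.one_lt.le
      rwa [prod_const_one] at h10
    have h9 : z ^ s < z ^ u := pow_lt_pow_right₀ hz hcon
    linarith

end Pool.Agent.H92.AP
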